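import Mathlib

namespace HZ8

open Finset

theorem kst {N M : ℕ} (hM : 1 ≤ M) {E : Finset ℕ} (hE : E ⊆ range N) (h4 : 4 * M ≤ E.card) :
    ∃ A : Finset ℕ, A ⊆ range N ∧ A.card = M ∧
      2 * (N : ℝ) * ((E.card : ℝ) / (4 * N)) ^ M ≤
        ((range (2 * N)).filter (fun x => ∀ a ∈ A, ∃ e ∈ E, x + a = N + e)).card := by
  classical
  have hEN : E.card ≤ N := by simpa using card_le_card hE
  have hN0 : 0 < N := by omega
  have hNr : (0 : ℝ) < N := by exact_mod_cast hN0
  obtain ⟨r, hr⟩ : ∃ r : ℕ → ℕ → Prop, ∀ x a, r x a ↔ ∃ e ∈ E, x + a = N + e := ⟨_, fun _ _ => Iff.rfl⟩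
  have hset : ∀ A : Finset ℕ, (range (2 * N)).filter (fun x => ∀ a ∈ A, ∃ e ∈ E, x + a = N + e) =
      (range (2 * N)).filter (fun x => ∀ a ∈ A, r x a) := by
    intro A
    refine filter_congr fun x _ => ?_
    simp only [hr]
  simp only [hset]
  -- step 1
  obtain ⟨f, hf⟩ : ∃ f : ℕ → ℕ, ∀ x, f x = ((range N).filter (r x)).card := ⟨_, fun _ => rfl⟩
  have h1 : ∑ x ∈ range (2 * N), f x = N * E.card := by
    have h := Finset.sum_card_bipartiteAbove_eq_sum_card_bipartiteBelow (s := range (2 * N))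
      (t := range N) r
    simp only [bipartiteAbove, bipartiteBelow] at h
    simp only [hf]
    rw [h]
    have h2 : ∀ a ∈ range N, ((range (2 * N)).filter (fun x => r x a)).card = E.card := by
      intro a ha
      have ha' := mem_range.1 ha
      symm
      refine card_bij (fun e _ => N + e - a) ?_ ?_ ?_
      · intro e he
        have := mem_range.1 (hE he)
        exact mem_filter.2 ⟨mem_range.2 (by omega), (hr _ _).2 ⟨e, he, by omega⟩⟩
      · intro e he e' he' h
        have := mem_range.1 (hE he)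
        have := mem_range.1 (hE he')
        omega
      · intro x hx
        obtain ⟨h3, h5⟩ := mem_filter.1 hx
        obtain ⟨e, he, hxe⟩ := (hr _ _).1 h5
        exact ⟨e, he, by omega⟩
    rw [sum_congr rfl h2, sum_const, card_range, smul_eq_mul]
  -- step 2
  have h2 : ∑ A ∈ powersetCard M (range N), ((range (2 * N)).filter (fun x => ∀ a ∈ A, r x a)).card =
      ∑ x ∈ range (2 * N), (f x).choose M := by
    have h := Finset.sum_card_bipartiteAbove_eq_sum_card_bipartiteBelow
      (s := powersetCard M (range N)) (t := range (2 * N)) (fun A x => ∀ a ∈ A, r x a)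
    simp only [bipartiteAbove, bipartiteBelow] at h
    rw [h]
    refine sum_congr rfl fun x _ => ?_
    rw [hf, ← card_powersetCard]
    congr 1
    ext A
    simp only [mem_filter, mem_powersetCard]
    constructor
    · rintro ⟨⟨h3, h5⟩, h6⟩
      exact ⟨fun a ha => mem_filter.2 ⟨h3 ha, h6 a ha⟩, h5⟩
    · rintro ⟨h3, h5⟩
      exact ⟨⟨fun a ha => (mem_filter.1 (h3 ha)).1, h5⟩, fun a ha => (mem_filter.1 (h3 ha)).2⟩
  -- step 3
  have h3 : ∀ x, (N.choose M : ℝ) * ((f x + 1 - M : ℕ) : ℝ) ^ M ≤ (N : ℝ) ^ M * ((f x).choose M : ℝ) := by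
    intro x
    have e1 := Nat.pow_sub_le_descFactorial (f x) M
    have e2 := Nat.descFactorial_le_pow N M
    rw [Nat.descFactorial_eq_factorial_mul_choose] at e1 e2
    have e3 : N.choose M * (f x + 1 - M) ^ M ≤ N ^ M * (f x).choose M := by
      calc N.choose M * (f x + 1 - M) ^ M ≤ N.choose M * (M.factorial * (f x).choose M) :=
            Nat.mul_le_mul_left _ e1
        _ = (M.factorial * N.choose M) * (f x).choose M := by ring
        _ ≤ N ^ M * (f x).choose M := Nat.mul_le_mul_right _ e2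
    exact_mod_cast e3
  -- step 4
  have h5 : (N : ℝ) * E.card / 2 ≤ ∑ x ∈ range (2 * N), ((f x + 1 - M : ℕ) : ℝ) := by
    have e1 : ∀ x ∈ range (2 * N), (f x : ℝ) - M ≤ ((f x + 1 - M : ℕ) : ℝ) := by
      intro x _
      rcases Nat.lt_or_ge (f x + 1) M with h | h
      · have : (f x : ℝ) + 1 ≤ M := by exact_mod_cast h.le
        have h0 : (0 : ℝ) ≤ ((f x + 1 - M : ℕ) : ℝ) := Nat.cast_nonneg _
        linarith
      · rw [Nat.cast_sub h]
        push_cast
        linarith
    have e2 := sum_le_sum e1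
    rw [sum_sub_distrib, sum_const, card_range, nsmul_eq_mul] at e2
    have e3 : (∑ x ∈ range (2 * N), (f x : ℝ)) = N * E.card := by exact_mod_cast h1
    rw [e3] at e2
    push_cast at e2
    have e4 : (4 : ℝ) * M ≤ E.card := by exact_mod_cast h4
    nlinarith
  have h6 : 2 * (N : ℝ) * ((E.card : ℝ) / 4) ^ M ≤
      ∑ x ∈ range (2 * N), ((f x + 1 - M : ℕ) : ℝ) ^ M := by
    obtain ⟨n, rfl⟩ : ∃ n, M = n + 1 := ⟨M - 1, by omega⟩
    have e1 := pow_sum_div_card_le_sum_pow (s := range (2 * N))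
      (f := fun x => ((f x + 1 - (n + 1) : ℕ) : ℝ)) (fun x _ => Nat.cast_nonneg _) n
    refine le_trans ?_ e1
    rw [card_range]
    have e2 : (0 : ℝ) < ((2 * N : ℕ) : ℝ) := by positivity
    rw [le_div_iff₀ (by positivity)]
    calc 2 * (N : ℝ) * ((E.card : ℝ) / 4) ^ (n + 1) * ((2 * N : ℕ) : ℝ) ^ n
        = ((N : ℝ) * E.card / 2) ^ (n + 1) := by
          push_cast
          rw [show (N : ℝ) * E.card / 2 = 2 * N * ((E.card : ℝ) / 4) by ring]
          generalize (E.card : ℝ) / 4 = y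
          generalize 2 * (N : ℝ) = z
          rw [mul_pow, pow_succ z n]
          ring
      _ ≤ _ := pow_le_pow_left₀ (by positivity) h5 _
  -- step 5
  have h7 : (N.choose M : ℝ) * (2 * (N : ℝ) * ((E.card : ℝ) / (4 * N)) ^ M) ≤
      ∑ x ∈ range (2 * N), ((f x).choose M : ℝ) := by
    have e1 : ∑ x ∈ range (2 * N), (N.choose M : ℝ) * ((f x + 1 - M : ℕ) : ℝ) ^ M ≤
        ∑ x ∈ range (2 * N), (N : ℝ) ^ M * ((f x).choose M : ℝ) := sum_le_sum fun x _ => h3 x
    rw [← mul_sum, ← mul_sum] at e1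
    have e2 : (N.choose M : ℝ) * (2 * (N : ℝ) * ((E.card : ℝ) / 4) ^ M) ≤
        (N : ℝ) ^ M * ∑ x ∈ range (2 * N), ((f x).choose M : ℝ) :=
      (mul_le_mul_of_nonneg_left h6 (Nat.cast_nonneg _)).trans e1
    have e3 : ((E.card : ℝ) / (4 * N)) ^ M = ((E.card : ℝ) / 4) ^ M / (N : ℝ) ^ M := by
      rw [← div_pow]
      congr 1
      field_simp
    rw [e3]
    have e4 : (0 : ℝ) < (N : ℝ) ^ M := by positivity
    rw [← mul_div_assoc, ← mul_div_assoc, div_le_iff₀ e4]
    linarith
  have hne : (powersetCard M (range N)).Nonempty := by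
    rw [powersetCard_nonempty, card_range]
    omega
  obtain ⟨A, hA, hle⟩ := exists_le_of_sum_le (s := powersetCard M (range N))
    (f := fun _ => 2 * (N : ℝ) * ((E.card : ℝ) / (4 * N)) ^ M)
    (g := fun A => (((range (2 * N)).filter (fun x => ∀ a ∈ A, r x a)).card : ℝ)) hne (by
      rw [sum_const, card_powersetCard, card_range, nsmul_eq_mul]
      have e : (∑ A ∈ powersetCard M (range N),
          (((range (2 * N)).filter (fun x => ∀ a ∈ A, r x a)).card : ℝ)) =
          ∑ x ∈ range (2 * N), ((f x).choose M : ℝ) := by exact_mod_cast h2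
      rw [e]
      exact h7)
  obtain ⟨hA1, hA2⟩ := mem_powersetCard.1 hA
  exact ⟨A, hA1, hA2, hle⟩

end HZ8
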