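import Mathlib

/-!
# Row NUM: the choice of the parameters (MEDIUM, real inequalities, ONLY MATHLIB)

Put `l = log N`, `L = log q`, `w = l ^ 3 / ((s + 1) L ^ 2)`; the hypothesis says `4 N exp (- w / 200) < e`.
1. `e ≤ N` gives `N ≥ 1`, `exp (w / 200) > 4`, so `w > 200 log 4 = 400 log 2 > 277`; since `0 ≤ l ≤ L` (`l > 0`):
   `w ≤ l / (s + 1) ≤ l`; so `l > 277`.
2. `X = exp (2 l / 3)`, `r = ⌊(X - 1) / 2⌋₊`: `X - 2 < 2 r + 1 ≤ X`, hence `2 r + 1 ≥ X / 2` and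
   `log (2 r + 1) ≥ 2 l / 3 - log 2 ≥ 0.66 l`; `2 r + 1 ≤ X ≤ exp l = N ≤ q`; `r ≥ 1`.
3. `c = L / log (2 r + 1)`, `c ≤ L / (0.66 l)`, `c ≥ 1` (as `2 r + 1 ≤ q`); `(s + 1) c ^ 2 ≤ 2.3 (s + 1) (L / l) ^ 2 = 2.3 l / w`.
   `M = ⌈23 (s + 1) c ^ 2⌉₊ ≤ 23 (s + 1) c ^ 2 + 1 ≤ 24 (s + 1) c ^ 2 ≤ 55.2 l / w ≤ 0.2 l`.
4. `4 M ≤ 0.8 l ≤ 4 exp (0.995 l) ≤ 4 N exp (- w / 200) < e` (`w ≤ l`).
5. `(e / (4 N)) ^ M ≥ exp (- w M / 200) ≥ exp (- 0.276 l)`, so the right-hand side is `≥ 2 exp (0.724 l)`; the left-hand side is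
   `235 (2 r + 1) (s + 1) ^ 2 c ^ 2 ≤ 235 exp (2 l / 3) * ((s + 1) c ^ 2) ^ 2` (as `c ≥ 1`) `≤ 235 exp (2 l / 3) * 5.29 (l / w) ^ 2`
   `≤ 1243.2 exp (2 l / 3) * l ^ 2 / 76729`, so it suffices that `0.0163 l ^ 2 ≤ 2 exp (0.057 l)`:
   with `x = 0.057 l ≥ 15.7`: `exp x ≥ x ^ 3 / 6 ≥ 15.7 x ^ 2 / 6 ≥ 2.6 x ^ 2 = 0.0084 l ^ 2`: ok
   (`Real.pow_div_factorial_le_exp`).
-/

namespace HZ8

theorem num8 {N q s e : ℕ} (hN : N ≤ q) (he : e ≤ N)
    (h : 4 * (N : ℝ) * Real.exp (-((Real.log N) ^ 3 / (200 * ((s : ℝ) + 1) * (Real.log q) ^ 2))) <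
      e) :
    ∃ r M : ℕ, 1 ≤ r ∧ 2 * r + 1 ≤ q ∧
      23 * ((s : ℝ) + 1) * (Real.log q / Real.log (2 * r + 1)) ^ 2 ≤ M ∧
      (M : ℝ) ≤ 24 * ((s : ℝ) + 1) * (Real.log q / Real.log (2 * r + 1)) ^ 2 ∧
      4 * M ≤ e ∧
      235 * (2 * (r : ℝ) + 1) * ((s : ℝ) + 1) ^ 2 * (Real.log q / Real.log (2 * r + 1)) ^ 2 ≤
        2 * (N : ℝ) * ((e : ℝ) / (4 * N)) ^ M := by
  obtain ⟨l, hl⟩ : ∃ l : ℝ, l = Real.log N := ⟨_, rfl⟩
  obtain ⟨L, hL⟩ : ∃ L : ℝ, L = Real.log q := ⟨_, rfl⟩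
  obtain ⟨t, ht⟩ : ∃ t : ℝ, t = (s : ℝ) + 1 := ⟨_, rfl⟩
  rw [← hl, ← hL, ← ht] at h
  rw [← hL, ← ht]
  have ht1 : (1 : ℝ) ≤ t := by
    rw [ht]
    have : (0 : ℝ) ≤ (s : ℝ) := Nat.cast_nonneg s
    linarith
  obtain ⟨a, ha⟩ : ∃ a : ℝ, a = l ^ 3 / (200 * t * L ^ 2) := ⟨_, rfl⟩
  rw [← ha] at h
  have heN : (e : ℝ) ≤ N := by exact_mod_cast he
  have hNq : (N : ℝ) ≤ q := by exact_mod_cast hN
  have hepos : (0 : ℝ) < e := lt_of_le_of_lt (by positivity) h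
  have hNpos : (0 : ℝ) < N := lt_of_lt_of_le hepos heN
  have hN1 : (1 : ℝ) ≤ N := by
    have : 0 < N := by exact_mod_cast hNpos
    exact_mod_cast this
  have hqpos : (0 : ℝ) < q := lt_of_lt_of_le hNpos hNq
  have hl0 : 0 ≤ l := by rw [hl]; exact Real.log_nonneg hN1
  have hlL : l ≤ L := by rw [hl, hL]; exact Real.log_le_log hNpos hNq
  -- step 1
  have h1 : 4 * Real.exp (-a) < 1 := by
    have h2 : 4 * (N : ℝ) * Real.exp (-a) < N := lt_of_lt_of_le h heN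
    by_contra hcon
    push Not at hcon
    have : (N : ℝ) * 1 ≤ N * (4 * Real.exp (-a)) := mul_le_mul_of_nonneg_left hcon hNpos.le
    linarith
  have ha1 : 2 * Real.log 2 < a := by
    have h3 : Real.exp (2 * Real.log 2) = 4 := by
      rw [two_mul, Real.exp_add, Real.exp_log (by norm_num)]
      norm_num
    have h4 : 4 < Real.exp a := by
      rw [Real.exp_neg] at h1
      have h5 := Real.exp_pos a
      have h6 : 4 * (Real.exp a)⁻¹ * Real.exp a < 1 * Real.exp a :=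
        mul_lt_mul_of_pos_right h1 h5
      rw [mul_assoc, inv_mul_cancel₀ h5.ne'] at h6
      linarith
    rw [← h3] at h4
    exact Real.exp_lt_exp.mp h4
  have ha2 : 1.3862 < a := by
    have := Real.log_two_gt_d9
    linarith
  have hlpos : 0 < l := by
    rcases hl0.lt_or_eq with h5 | h5
    · exact h5
    · exfalso
      rw [← h5] at ha
      norm_num at ha
      linarith
  have hLpos : 0 < L := lt_of_lt_of_le hlpos hlL
  have htpos : 0 < t := by linarith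
  -- w = 200 a
  obtain ⟨w, hw⟩ : ∃ w : ℝ, w = 200 * a := ⟨_, rfl⟩
  have hwa : a = w / 200 := by rw [hw]; ring
  have hw277 : 277 < w := by rw [hw]; linarith
  have hwpos : 0 < w := by linarith
  have hwL : w * (t * L ^ 2) = l ^ 3 := by
    rw [hw, ha]
    field_simp
  have hwl : w ≤ l := by
    have h6 : l ^ 3 ≤ l * (t * L ^ 2) := by
      have h7 : l ^ 2 ≤ L ^ 2 := pow_le_pow_left₀ hl0 hlL 2
      have h8 : l ^ 2 ≤ t * L ^ 2 := by nlinarith [sq_nonneg L]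
      nlinarith
    rw [← hwL] at h6
    exact le_of_mul_le_mul_right h6 (by positivity)
  have hl277 : 277 < l := lt_of_lt_of_le hw277 hwl
  -- step 2
  obtain ⟨X, hX⟩ : ∃ X : ℝ, X = Real.exp (2 * l / 3) := ⟨_, rfl⟩
  have hX4 : 4 ≤ X := by
    rw [hX]
    have := Real.add_one_le_exp (2 * l / 3)
    linarith
  have hXN : X ≤ N := by
    have h9 : (N : ℝ) = Real.exp l := by rw [hl, Real.exp_log hNpos]
    rw [hX, h9]
    exact Real.exp_le_exp.mpr (by linarith)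
  obtain ⟨r, hr⟩ : ∃ r : ℕ, r = ⌊(X - 1) / 2⌋₊ := ⟨_, rfl⟩
  have hr1 : (r : ℝ) ≤ (X - 1) / 2 := by
    rw [hr]
    exact Nat.floor_le (by linarith)
  have hr2 : (X - 1) / 2 < r + 1 := by
    rw [hr]
    exact Nat.lt_floor_add_one _
  have hr3 : 1 ≤ r := by
    rw [hr]
    exact Nat.le_floor (by push_cast; linarith)
  obtain ⟨b, hb⟩ : ∃ b : ℝ, b = Real.log (2 * (r : ℝ) + 1) := ⟨_, rfl⟩
  have hY1 : 2 * (r : ℝ) + 1 ≤ X := by linarith
  have hY2 : X / 2 ≤ 2 * (r : ℝ) + 1 := by linarith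
  have hYpos : (0 : ℝ) < 2 * (r : ℝ) + 1 := by positivity
  have hYq : 2 * (r : ℝ) + 1 ≤ q := by linarith
  have hb1 : 0.66 * l ≤ b := by
    have h10 : Real.log (X / 2) ≤ Real.log (2 * (r : ℝ) + 1) :=
      Real.log_le_log (by linarith) hY2
    rw [Real.log_div (by linarith) (by norm_num), hX, Real.log_exp, ← hb] at h10
    have := Real.log_two_lt_d9
    linarith
  have hbL : b ≤ L := by
    rw [hb, hL]
    exact Real.log_le_log hYpos hYq
  have hbpos : 0 < b := by nlinarith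
  -- step 3
  obtain ⟨c, hc⟩ : ∃ c : ℝ, c = L / b := ⟨_, rfl⟩
  have hc1 : 1 ≤ c := by
    rw [hc, le_div_iff₀ hbpos]
    linarith
  have hcl : c * l ≤ L / 0.66 := by
    have h11 : c * b = L := by
      rw [hc]
      field_simp
    have h12 : c * (0.66 * l) ≤ c * b := mul_le_mul_of_nonneg_left hb1 (by linarith)
    rw [le_div_iff₀ (by norm_num)]
    linarith
  have htc : t * c ^ 2 * w ≤ 2.3 * l := by
    -- t c² w · l² ≤ 2.3 l³
    have h13 : (c * l) ^ 2 ≤ (L / 0.66) ^ 2 :=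
      pow_le_pow_left₀ (by positivity) hcl 2
    have h14 : (c * l) ^ 2 ≤ 2.3 * L ^ 2 := by
      have : (L / 0.66) ^ 2 ≤ 2.3 * L ^ 2 := by
        rw [div_pow]
        rw [div_le_iff₀ (by norm_num)]
        nlinarith [sq_nonneg L]
      linarith
    have h15 : (t * w) * (c * l) ^ 2 ≤ (t * w) * (2.3 * L ^ 2) :=
      mul_le_mul_of_nonneg_left h14 (by positivity)
    have h16 : (t * c ^ 2 * w) * l ^ 2 ≤ (2.3 * l) * l ^ 2 := by
      calc (t * c ^ 2 * w) * l ^ 2 = (t * w) * (c * l) ^ 2 := by ring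
        _ ≤ (t * w) * (2.3 * L ^ 2) := h15
        _ = 2.3 * (w * (t * L ^ 2)) := by ring
        _ = (2.3 * l) * l ^ 2 := by rw [hwL]; ring
    exact le_of_mul_le_mul_right h16 (by positivity)
  have htcpos : 1 ≤ t * c ^ 2 := by
    have h17 : 1 ≤ c ^ 2 := one_le_pow₀ hc1
    nlinarith
  obtain ⟨M, hM⟩ : ∃ M : ℕ, M = ⌈23 * t * c ^ 2⌉₊ := ⟨_, rfl⟩
  have hM1 : 23 * t * c ^ 2 ≤ M := by
    rw [hM]
    exact Nat.le_ceil _
  have hM2 : (M : ℝ) ≤ 24 * t * c ^ 2 := by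
    have h18 : (M : ℝ) < 23 * t * c ^ 2 + 1 := by
      rw [hM]
      exact Nat.ceil_lt_add_one (by positivity)
    nlinarith
  have hMw : (M : ℝ) * w ≤ 55.2 * l := by
    have h19 : (M : ℝ) * w ≤ (24 * t * c ^ 2) * w := mul_le_mul_of_nonneg_right hM2 hwpos.le
    nlinarith
  have hMl : (M : ℝ) ≤ 0.2 * l := by
    have h20 : (M : ℝ) * 277 ≤ M * w := mul_le_mul_of_nonneg_left hw277.le (Nat.cast_nonneg M)
    nlinarith
  have hNexp : (N : ℝ) = Real.exp l := by rw [hl, Real.exp_log hNpos]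
  refine ⟨r, M, hr3, by exact_mod_cast hYq, ?_, ?_, ?_, ?_⟩
  · rw [← hb, ← hc]; exact hM1
  · rw [← hb, ← hc]; exact hM2
  · -- step 4
    have h21 : 4 * (M : ℝ) ≤ e := by
      have h22 : 4 * (N : ℝ) * Real.exp (-a) = 4 * Real.exp (l - a) := by
        rw [hNexp, mul_assoc, ← Real.exp_add]
        ring_nf
      rw [h22] at h
      have h23 := Real.add_one_le_exp (l - a)
      have h24 : a ≤ l / 200 := by rw [hwa]; linarith
      linarith
    exact_mod_cast h21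
  · -- step 5
    rw [← hb, ← hc]
    have h25 : Real.exp (-a) ≤ (e : ℝ) / (4 * N) := by
      rw [le_div_iff₀ (by positivity)]
      linarith
    have h26 : Real.exp (-a) ^ M ≤ ((e : ℝ) / (4 * N)) ^ M :=
      pow_le_pow_left₀ (Real.exp_pos _).le h25 M
    have h27 : Real.exp (-(0.276 * l)) ≤ Real.exp (-a) ^ M := by
      rw [← Real.exp_nat_mul]
      apply Real.exp_le_exp.mpr
      rw [hwa]
      linarith
    have h28 : 2 * Real.exp (0.724 * l) ≤ 2 * (N : ℝ) * ((e : ℝ) / (4 * N)) ^ M := by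
      have h29 : Real.exp (0.724 * l) = N * Real.exp (-(0.276 * l)) := by
        rw [hNexp, ← Real.exp_add]
        congr 1
        ring
      rw [h29]
      have h30 : (N : ℝ) * Real.exp (-(0.276 * l)) ≤ N * ((e : ℝ) / (4 * N)) ^ M :=
        mul_le_mul_of_nonneg_left (h27.trans h26) hNpos.le
      linarith
    refine le_trans ?_ h28
    -- left side
    have h31 : t * c ^ 2 ≤ 0.0083033 * l := by
      have h32 : (t * c ^ 2) * 277 ≤ (t * c ^ 2) * w :=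
        mul_le_mul_of_nonneg_left hw277.le (by positivity)
      nlinarith
    have h33 : t ^ 2 * c ^ 2 ≤ (t * c ^ 2) ^ 2 := by
      have h17 : 1 ≤ c ^ 2 := one_le_pow₀ hc1
      have h34 : t ^ 2 * c ^ 2 * 1 ≤ t ^ 2 * c ^ 2 * c ^ 2 :=
        mul_le_mul_of_nonneg_left h17 (by positivity)
      calc t ^ 2 * c ^ 2 = t ^ 2 * c ^ 2 * 1 := by ring
        _ ≤ t ^ 2 * c ^ 2 * c ^ 2 := h34
        _ = (t * c ^ 2) ^ 2 := by ring
    have h35 : (t * c ^ 2) ^ 2 ≤ (0.0083033 * l) ^ 2 :=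
      pow_le_pow_left₀ (by positivity) h31 2
    have h36 : t ^ 2 * c ^ 2 ≤ 0.000068945 * l ^ 2 := by
      refine (h33.trans h35).trans ?_
      nlinarith [sq_nonneg l]
    have h37 : 235 * (2 * (r : ℝ) + 1) * t ^ 2 * c ^ 2 ≤
        235 * X * (0.000068945 * l ^ 2) := by
      calc 235 * (2 * (r : ℝ) + 1) * t ^ 2 * c ^ 2
          = (235 * (2 * (r : ℝ) + 1)) * (t ^ 2 * c ^ 2) := by ring
        _ ≤ (235 * X) * (0.000068945 * l ^ 2) :=
            mul_le_mul (by linarith) h36 (by positivity) (by positivity)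
    refine h37.trans ?_
    have h38 : Real.exp (0.724 * l) = X * Real.exp (0.057 * l + (0.724 - 2 / 3 - 0.057) * l) := by
      rw [hX, ← Real.exp_add]
      congr 1
      ring
    have h39 : Real.exp (0.057 * l) ≤ Real.exp (0.057 * l + (0.724 - 2 / 3 - 0.057) * l) := by
      apply Real.exp_le_exp.mpr
      nlinarith
    have h40 : (0.057 * l) ^ 3 / 6 ≤ Real.exp (0.057 * l) := by
      have := Real.pow_div_factorial_le_exp (0.057 * l) (by positivity) 3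
      simpa [Nat.factorial] using this
    have h41 : 235 * (0.000068945 * l ^ 2) ≤ 2 * Real.exp (0.057 * l) := by
      have h42 : 235 * (0.000068945 * l ^ 2) ≤ 2 * ((0.057 * l) ^ 3 / 6) := by
        have h43 : 277 * l ^ 2 ≤ l * l ^ 2 := mul_le_mul_of_nonneg_right hl277.le (by positivity)
        nlinarith
      linarith
    rw [h38]
    have hXpos : 0 < X := by linarith
    calc 235 * X * (0.000068945 * l ^ 2) = X * (235 * (0.000068945 * l ^ 2)) := by ring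
      _ ≤ X * (2 * Real.exp (0.057 * l)) := mul_le_mul_of_nonneg_left h41 hXpos.le
      _ ≤ X * (2 * Real.exp (0.057 * l + (0.724 - 2 / 3 - 0.057) * l)) :=
          mul_le_mul_of_nonneg_left (by linarith) hXpos.le
      _ = 2 * (X * Real.exp (0.057 * l + (0.724 - 2 / 3 - 0.057) * l)) := by ring

end HZ8
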