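import Pool.Agent.LibHZ8.Defs

/-!
# Row PAR: admissible parameters (MEDIUM, real inequalities)
-/

namespace HZ8

theorem par8_real {p L l c σ M δ : ℝ} (hp : 3 ≤ p) (hL : 1.098 ≤ L) (hl : 0 < l) (hlL : l ≤ L)
    (hc : c * l = L) (hc1 : 1 ≤ c) (hσ : 0 ≤ σ) (hM : 23 * (σ + 1) * c ^ 2 ≤ M)
    (hδ1 : 66 * ((σ + 1) * p * c) ≤ δ) (hδ2 : δ ≤ 66 * ((σ + 1) * p * c) + 1)
    {t : ℝ} (ht : t ≤ 0.6931471808) :
    δ + δ ^ 2 * L / 2 + σ * M * (7 * p + (7 * p) ^ 2 * L / 2) +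
      M * (3 * p + (3 * p) ^ 2 * L / 2 + 3 * p * (3 * p * (2 * L + 1 + 8 * t))) <
    M * (3 * p * (δ - 7 * p) * l) := by
  have hp0 : 0 < p := by linarith
  have hL0 : 0 < L := by linarith
  have hc0 : 0 < c := by linarith
  have hσ1 : 0 < σ + 1 := by linarith
  have hX : 3 ≤ (σ + 1) * p * c := by
    have h1 : 1 * 3 ≤ (σ + 1) * p := mul_le_mul (by linarith) hp (by norm_num) hσ1.le
    nlinarith
  have hδ0 : 0 < δ := by linarith
  have hM0 : 0 < M := by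
    have : 0 < 23 * (σ + 1) * c ^ 2 := by positivity
    linarith
  have hpL : 3.294 ≤ p * L := by nlinarith
  -- the pieces
  have h1 : 7 * p + (7 * p) ^ 2 * L / 2 ≤ 27 * (p ^ 2 * L) := by
    have : 7 * p ≤ 2.5 * (p * (p * L)) := by nlinarith
    nlinarith
  have h2 : 3 * p + (3 * p) ^ 2 * L / 2 + 3 * p * (3 * p * (2 * L + 1 + 8 * t)) ≤
      77.1 * (p ^ 2 * L) := by
    have h3 : 3 * p ≤ p ^ 2 := by nlinarith
    have h4 : 3 * p * (3 * p * (1 + 8 * t)) ≤ 58.91 * p ^ 2 := by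
      have : p ^ 2 * t ≤ p ^ 2 * 0.6931471808 := mul_le_mul_of_nonneg_left ht (by positivity)
      nlinarith
    have h5 : 59.91 * p ^ 2 ≤ 54.6 * (p ^ 2 * L) := by
      have : p ^ 2 * 1.098 ≤ p ^ 2 * L := mul_le_mul_of_nonneg_left hL (by positivity)
      nlinarith
    nlinarith
  have h6 : p ^ 2 * l ≤ p ^ 2 * L := mul_le_mul_of_nonneg_left hlL (by positivity)
  -- the gain
  have hg : 66 * ((σ + 1) * p * L) ≤ δ * l := by
    calc 66 * ((σ + 1) * p * L) = 66 * ((σ + 1) * p * c) * l := by rw [← hc]; ring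
      _ ≤ δ * l := mul_le_mul_of_nonneg_right hδ1 hl.le
  have hcost : σ * M * (7 * p + (7 * p) ^ 2 * L / 2) +
      M * (3 * p + (3 * p) ^ 2 * L / 2 + 3 * p * (3 * p * (2 * L + 1 + 8 * t))) +
      M * (21 * p ^ 2 * l) ≤ 98.1 * ((σ + 1) * M * (p ^ 2 * L)) := by
    have a1 : σ * M * (7 * p + (7 * p) ^ 2 * L / 2) ≤ σ * M * (27 * (p ^ 2 * L)) :=
      mul_le_mul_of_nonneg_left h1 (by positivity)
    have a2 : M * (3 * p + (3 * p) ^ 2 * L / 2 + 3 * p * (3 * p * (2 * L + 1 + 8 * t))) ≤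
        M * (77.1 * (p ^ 2 * L)) := mul_le_mul_of_nonneg_left h2 hM0.le
    have a3 : M * (21 * p ^ 2 * l) ≤ M * (21 * (p ^ 2 * L)) :=
      mul_le_mul_of_nonneg_left (by linarith) hM0.le
    have a4 : 0 ≤ σ * M * (p ^ 2 * L) := by positivity
    nlinarith
  have hcost2 : 198 * ((σ + 1) * M * (p ^ 2 * L)) ≤ 3 * p * M * δ * l := by
    have := mul_le_mul_of_nonneg_left hg (show 0 ≤ 3 * p * M by positivity)
    nlinarith
  -- the rest
  have hrest : 1 + δ * L / 2 < 1.5135 * (p * M * l) := by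
    have b1 : 23 * ((σ + 1) * p * c * L) ≤ p * M * l := by
      have := mul_le_mul_of_nonneg_left hM (show 0 ≤ p * l by positivity)
      have e : p * l * (23 * (σ + 1) * c ^ 2) = 23 * ((σ + 1) * p * c * (c * l)) := by ring
      rw [e, hc] at this
      linarith
    have b2 : δ * L / 2 ≤ 33 * ((σ + 1) * p * c * L) + L / 2 := by
      have := mul_le_mul_of_nonneg_right hδ2 hL0.le
      nlinarith
    have b3 : 3 * L ≤ (σ + 1) * p * c * L := mul_le_mul_of_nonneg_right hX hL0.le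
    nlinarith
  have hfin : δ + δ ^ 2 * L / 2 < 1.5135 * (p * M * δ * l) := by
    have := mul_lt_mul_of_pos_left hrest hδ0
    nlinarith
  have e2 : M * (3 * p * (δ - 7 * p) * l) = 3 * p * M * δ * l - M * (21 * p ^ 2 * l) := by ring
  rw [e2]
  have hpos : 0 < p * M * δ * l := by positivity
  nlinarith

theorem par8 {q s r M m : ℕ} (hr : 1 ≤ r) (hq : 2 * r + 1 ≤ q)
    (hM1 : 23 * ((s : ℝ) + 1) * (Real.log q / Real.log (2 * r + 1)) ^ 2 ≤ M)
    (hM2 : (M : ℝ) ≤ 24 * ((s : ℝ) + 1) * (Real.log q / Real.log (2 * r + 1)) ^ 2)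
    (hm : 235 * (2 * (r : ℝ) + 1) * ((s : ℝ) + 1) ^ 2 *
      (Real.log q / Real.log (2 * r + 1)) ^ 2 ≤ m) :
    ∃ δ : ℕ, Adm q s r m M δ (3 * (2 * r + 1)) (7 * (2 * r + 1)) := by
  have hr' : (1 : ℝ) ≤ r := by exact_mod_cast hr
  have hq' : 2 * (r : ℝ) + 1 ≤ q := by exact_mod_cast hq
  obtain ⟨p, hpdef⟩ : ∃ p : ℝ, p = 2 * (r : ℝ) + 1 := ⟨_, rfl⟩
  obtain ⟨L, hLdef⟩ : ∃ L : ℝ, L = Real.log q := ⟨_, rfl⟩
  obtain ⟨l, hldef⟩ : ∃ l : ℝ, l = Real.log (2 * (r : ℝ) + 1) := ⟨_, rfl⟩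
  rw [← hLdef, ← hldef] at hM1 hM2 hm
  rw [← hpdef] at hm hq'
  have hp3 : 3 ≤ p := by rw [hpdef]; linarith
  have h3 : (1.098 : ℝ) ≤ Real.log 3 := by
    rw [Real.le_log_iff_exp_le (by norm_num)]
    have h1 : Real.exp 1.098 = Real.exp 1 * Real.exp 0.098 := by
      rw [← Real.exp_add]; norm_num
    have h2 : Real.exp (0.098 : ℝ) ≤ 1.103 := by
      have := Real.exp_bound' (x := 0.098) (by norm_num) (by norm_num) (n := 4) (by norm_num)
      refine this.trans ?_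
      norm_num [Finset.sum_range_succ, Nat.factorial]
    rw [h1]
    have h4 := Real.exp_one_lt_d9
    have h5 := Real.exp_pos (0.098 : ℝ)
    nlinarith
  have hl0 : 0 < l := by
    rw [hldef, ← hpdef]
    exact Real.log_pos (by linarith)
  have hlL : l ≤ L := by
    rw [hldef, hLdef, ← hpdef]
    exact Real.log_le_log (by linarith) hq'
  have hL : 1.098 ≤ L := by
    refine h3.trans ?_
    rw [hLdef]
    exact Real.log_le_log (by norm_num) (by linarith)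
  obtain ⟨c, hcdef⟩ : ∃ c : ℝ, c = L / l := ⟨_, rfl⟩
  rw [← hcdef] at hM1 hM2 hm
  have hcl : c * l = L := by rw [hcdef]; field_simp
  have hc1 : 1 ≤ c := by rw [hcdef, le_div_iff₀ hl0]; linarith
  have hs : (0 : ℝ) ≤ s := Nat.cast_nonneg s
  have hX : 3 ≤ ((s : ℝ) + 1) * p * c := by
    have h1 : 1 * 3 ≤ ((s : ℝ) + 1) * p :=
      mul_le_mul (by linarith) hp3 (by norm_num) (by linarith)
    nlinarith
  have hX0 : (0 : ℝ) ≤ 66 * (((s : ℝ) + 1) * p * c) := by linarith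
  have hδ1 := Nat.le_ceil (66 * (((s : ℝ) + 1) * p * c))
  have hδ2 := (Nat.ceil_lt_add_one hX0).le
  refine ⟨⌈66 * (((s : ℝ) + 1) * p * c)⌉₊, ?_⟩
  generalize ⌈66 * (((s : ℝ) + 1) * p * c)⌉₊ = δ at hδ1 hδ2 ⊢
  have hXp : p ≤ ((s : ℝ) + 1) * p * c := by
    have h1 : 1 * p ≤ ((s : ℝ) + 1) * p := mul_le_mul_of_nonneg_right (by linarith) (by linarith)
    nlinarith
  refine ⟨by omega, hr, by omega, ?_, ?_, ?_⟩
  · have : ((7 * (2 * r + 1) : ℕ) : ℝ) < (δ : ℝ) := by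
      push_cast
      rw [← hpdef]
      linarith
    exact_mod_cast this
  · have : ((δ + 7 * (2 * r + 1) * (M * (s + 1)) : ℕ) : ℝ) < (m : ℝ) := by
      refine lt_of_lt_of_le ?_ hm
      push_cast
      rw [← hpdef]
      have hs1 : (1 : ℝ) ≤ (s : ℝ) + 1 := by linarith
      have hY : ((s : ℝ) + 1) * p * c ≤ p * ((s : ℝ) + 1) ^ 2 * c ^ 2 := by
        have h1 : ((s : ℝ) + 1) * p * c * 1 ≤ ((s : ℝ) + 1) * p * c * (((s : ℝ) + 1) * c) := by
          refine mul_le_mul_of_nonneg_left ?_ (by linarith)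
          nlinarith
        nlinarith
      have h2 : 7 * p * ((M : ℝ) * ((s : ℝ) + 1)) ≤
          7 * p * (24 * ((s : ℝ) + 1) * c ^ 2 * ((s : ℝ) + 1)) := by
        refine mul_le_mul_of_nonneg_left ?_ (by linarith)
        exact mul_le_mul_of_nonneg_right hM2 (by linarith)
      nlinarith
    exact_mod_cast this
  · have key := par8_real hp3 hL hl0 hlL hcl hc1 hs hM1 hδ1 hδ2
      (t := Real.log 2) (by have := Real.log_two_lt_d9; linarith)
    rw [← hLdef, ← hldef]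
    push_cast
    rw [← hpdef]
    convert key using 2

end HZ8
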