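import Pool.Agent.LibHZ8.Core
import Pool.Agent.LibHZ8.PAR
import Pool.Agent.LibHZ8.KST
import Pool.Agent.LibHZ8.NUM

/-!
# Density in short arithmetic progressions (helper89)
-/

namespace HZ8

open Finset HZ89 Polynomial

theorem hur_mod {q : ℕ} (hq : 1 ≤ q) {y z : ℕ} (h : y % q = z % q) :
    hur ((y : ℝ) / q) = hur ((z : ℝ) / q) := by
  have hq0 : (0 : ℝ) < q := by exact_mod_cast hq
  have hmod : ∀ y : ℕ, HZ7.SS q (y : ℝ) = HZ7.SS q ((y % q : ℕ) : ℝ) := by
    intro y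
    conv_lhs => rw [← Nat.mod_add_div y q]
    have := HZ7.SS_per (q := q) (((y % q : ℕ) : ℝ)) (y / q)
    push_cast at this ⊢
    exact this
  have h1 := HZ7.SS_hur hq y
  have h2 := HZ7.SS_hur hq z
  rw [hmod y, h, ← hmod z, h2] at h1
  have h3 : (1 : ℝ) / (q : ℝ) ^ 3 ≠ 0 := by positivity
  exact (mul_left_cancel₀ h3 h1).symm

theorem density_ap {q : ℕ} (hq : 1 ≤ q) (V : Submodule ℚ ℝ) (hV : Module.Finite ℚ V)
    (x₀ h N : ℕ) (hN : 2 * N ≤ q)
    (hinj : ∀ t < 2 * N, ∀ t' < 2 * N, h * t % q = h * t' % q → t = t')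
    (E : Finset ℕ) (hE : E ⊆ range N)
    (hmem : ∀ t ∈ E, hur (((x₀ + h * t : ℕ) : ℝ) / q) ∈ V ⊔ Submodule.span ℚ {(1 : ℝ)}) :
    (E.card : ℝ) ≤ 4 * N * Real.exp (-((Real.log N) ^ 3 /
      (200 * ((Module.finrank ℚ V : ℝ) + 1) * (Real.log q) ^ 2))) := by
  by_contra hcon
  have hcon' := not_le.1 hcon
  have hEN : E.card ≤ N := by
    simpa using card_le_card hE
  obtain ⟨r, M, hr, hrq, hM1, hM2, h4, hm⟩ := num8 (by omega : N ≤ q) hEN hcon'
  have hq0 : (0 : ℝ) < q := by exact_mod_cast hq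
  have hMpos : 1 ≤ M := by
    have h3q : (2 * (r : ℝ) + 1) ≤ q := by exact_mod_cast hrq
    have hrr : (1 : ℝ) ≤ r := by exact_mod_cast hr
    have h1 : 0 < Real.log (2 * (r : ℝ) + 1) := Real.log_pos (by linarith)
    have h2 : Real.log (2 * (r : ℝ) + 1) ≤ Real.log q := Real.log_le_log (by linarith) h3q
    have h3 : 1 ≤ Real.log q / Real.log (2 * (r : ℝ) + 1) := (one_le_div h1).2 h2
    have h5 : (1 : ℝ) ≤ (Real.log q / Real.log (2 * (r : ℝ) + 1)) ^ 2 := one_le_pow₀ h3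
    have h6 : (0 : ℝ) ≤ (Module.finrank ℚ V : ℝ) := Nat.cast_nonneg _
    have h7 : (0 : ℝ) < M := by nlinarith
    exact_mod_cast h7
  obtain ⟨A, hA, hAc, hX⟩ := kst hMpos hE h4
  set X := (range (2 * N)).filter (fun x => ∀ a ∈ A, ∃ e ∈ E, x + a = N + e) with hXdef
  have hA' : ∀ a ∈ A, a < 2 * N := fun a ha => by
    have := mem_range.1 (hA ha)
    omega
  -- the sets of residues
  set C := A.image (fun a => h * a % q) with hCdef
  set I := X.image (fun x => (x₀ + (q - 1) * (h * N) + h * x) % q) with hIdef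
  have hCc : C.card = M := by
    rw [hCdef, card_image_of_injOn, hAc]
    intro a ha a' ha' haa
    exact hinj a (hA' a ha) a' (hA' a' ha') haa
  have hIc : I.card = X.card := by
    rw [hIdef, card_image_of_injOn]
    intro x hx x' hx' hxx
    have h1 : x < 2 * N := mem_range.1 (mem_filter.1 hx).1
    have h2 : x' < 2 * N := mem_range.1 (mem_filter.1 hx').1
    exact hinj x h1 x' h2 (Nat.ModEq.add_left_cancel' _ hxx)
  have hmI : 235 * (2 * (r : ℝ) + 1) * ((Module.finrank ℚ V : ℝ) + 1) ^ 2 *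
      (Real.log q / Real.log (2 * r + 1)) ^ 2 ≤ (I.card : ℕ) := by
    rw [hIc]
    exact hm.trans hX
  obtain ⟨δ, hδ⟩ := par8 (m := I.card) hr hrq hM1 hM2 hmI
  have hCne : C.Nonempty := by
    rw [← card_pos, hCc]
    omega
  refine core8_V (q := q) (s := Module.finrank ℚ V) (r := r) (δ := δ) (I := I) (Cs := C) hq hCne
    ?_ ?_ (by rw [hCc]; exact hδ) V hV rfl ?_
  · intro c hc
    obtain ⟨a, _, rfl⟩ := mem_image.1 hc
    exact Nat.mod_lt _ (by omega)
  · intro c hc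
    obtain ⟨a, _, rfl⟩ := mem_image.1 hc
    exact Nat.mod_lt _ (by omega)
  · intro y hy c hc
    obtain ⟨x, hx, rfl⟩ := mem_image.1 hy
    obtain ⟨a, ha, rfl⟩ := mem_image.1 hc
    obtain ⟨e, he, hxe⟩ := (mem_filter.1 hx).2 a ha
    have h1 : ((x₀ + (q - 1) * (h * N) + h * x) % q + h * a % q) % q = (x₀ + h * e) % q := by
      rw [← Nat.add_mod]
      have h2 : x₀ + (q - 1) * (h * N) + h * x + h * a = x₀ + h * e + q * (h * N) := by
        have h3 : h * x + h * a = h * N + h * e := by rw [← mul_add, hxe, mul_add]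
        obtain ⟨p, rfl⟩ : ∃ p, q = p + 1 := ⟨q - 1, by omega⟩
        rw [Nat.add_sub_cancel, add_mul]
        omega
      rw [h2, Nat.add_mul_mod_self_left]
    rw [hur_mod hq h1]
    exact hmem e he

end HZ8
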