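import Pool.Agent.LibHZ8.Defs
import Pool.Agent.LibHZ7.A1

/-!
# Row A2: integrality (SHORT, template LibHZ7/A2.lean: the same with `T = Tw r n`)

With `v : ℤ = j + c - q (r + 1) n` the factors of `WP` at `j` are `v + q i`, `i < T = Tw r n`, and the
terms of `ps q r n (j + c)` are `1 / |v + q i| ^ 3`.  By `HZ7.win_dvd` there is an integer `z i` with
`q ^ T * lcmUpto T * ∏_{erase i} (v + q k) = T! * z i`.
-/

namespace HZ8

open Finset HZ89 Polynomial

private theorem a2_key (q r n : ℕ) (v : ℤ) {i : ℕ} (hi : i < Tw r n) :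
    ∃ z : ℤ, bet q r n * ∏ k ∈ range (Tw r n), ((v : ℝ) + q * k) = z * ((v : ℝ) + q * i) := by
  obtain ⟨z, hz⟩ := HZ7.win_dvd q hi v
  refine ⟨z, ?_⟩
  have hz' := congrArg (Int.cast : ℤ → ℝ) hz
  push_cast at hz'
  have hf : (((Tw r n).factorial : ℕ) : ℝ) ≠ 0 := by exact_mod_cast Nat.factorial_ne_zero _
  rw [← Finset.mul_prod_erase (range (Tw r n)) (fun k : ℕ => (v : ℝ) + q * k)
    (Finset.mem_range.2 hi)]
  unfold bet
  rw [div_mul_eq_mul_div, div_eq_iff hf]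
  linear_combination ((v : ℝ) + q * i) * hz'

private theorem a2_eval (q r n c j : ℕ) : (WP q r n c).eval (j : ℝ) =
    (bet q r n * ∏ k ∈ range (Tw r n),
      ((((j : ℤ) + c - q * ((r + 1) * n) : ℤ) : ℝ) + q * k)) ^ 3 := by
  unfold WP
  rw [eval_pow, eval_mul, eval_C, eval_prod]
  congr 2
  refine Finset.prod_congr rfl fun k _ => ?_
  simp only [eval_add, eval_X, eval_C]
  push_cast
  ring

private theorem a2_pos (r n : ℕ) : 0 < Tw r n := by
  unfold Tw
  omega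

theorem W_int (q r n c j : ℕ) : ∃ z : ℤ, (WP q r n c).eval (j : ℝ) = z := by
  obtain ⟨z, hz⟩ := a2_key q r n ((j : ℤ) + c - q * ((r + 1) * n)) (a2_pos r n)
  refine ⟨(z * ((j : ℤ) + c - q * ((r + 1) * n))) ^ 3, ?_⟩
  rw [a2_eval, hz]
  push_cast
  ring

theorem Wps_int (q r n c j : ℕ) :
    ∃ z : ℤ, (WP q r n c).eval (j : ℝ) * ps q r n ((j : ℝ) + c) = z := by
  unfold ps
  rw [Finset.mul_sum]
  refine f3_sum _ _ fun i hi => ?_
  obtain ⟨z, hz⟩ := a2_key q r n ((j : ℤ) + c - q * ((r + 1) * n)) (Finset.mem_range.1 hi)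
  have h1 : (j : ℝ) + c - q * ((r + 1) * n) + q * i =
      (((j : ℤ) + c - q * ((r + 1) * n) : ℤ) : ℝ) + q * i := by
    push_cast
    ring
  rw [a2_eval, hz, h1]
  set x : ℝ := (((j : ℤ) + c - q * ((r + 1) * n) : ℤ) : ℝ) + q * i with hx
  rcases eq_or_ne x 0 with h0 | h0
  · exact ⟨0, by rw [h0]; simp⟩
  · rcases abs_choice x with h2 | h2
    · refine ⟨z ^ 3, ?_⟩
      rw [h2]
      push_cast
      field_simp
    · refine ⟨-z ^ 3, ?_⟩
      rw [h2]
      push_cast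
      have h3 : (-x) ^ 3 = -x ^ 3 := by ring
      rw [h3]
      field_simp

end HZ8
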