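import Pool.Agent.LibHZ8.Defs

/-!
# Row B1: sizes (SHORT/MEDIUM, template LibHZ7/B1.lean)

`T = Tw r n = (2 r + 1) n + 1`; every factor: `|j + c - q (r+1) n + q i| ≤ q T` (`0 ≤ j < q n`,
`0 ≤ c < q`, `i ≤ (2 r + 1) n`: it is between `- q (r + 1) n` and `q n + q + q r n = q ((r+1) n + 1)`, and
`(r + 1) n + 1 ≤ T`), so the product is at most `(q T) ^ T`; `T ^ T / T! ≤ exp T`; `HZ89.lcm_le`.
`W_natDegree`, `W_ne` as there.
-/

namespace HZ8

open Finset HZ89 Polynomial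

theorem W_le {q r n c j : ℕ} (hq : 1 ≤ q) (hc : c < q) (hj : j < q * n) :
    |(WP q r n c).eval (j : ℝ)| ≤
      ((q : ℝ) ^ (2 * Tw r n) * 2 ^ (8 * Tw r n) * Real.exp (Tw r n)) ^ 3 := by
  have hq1 : (1 : ℝ) ≤ q := by exact_mod_cast hq
  have hq0 : (0 : ℝ) < q := by linarith
  have hn0 : (0 : ℝ) ≤ n := Nat.cast_nonneg n
  have hr0 : (0 : ℝ) ≤ r := Nat.cast_nonneg r
  have hc1 : (c : ℝ) < q := by exact_mod_cast hc
  have hc0 : (0 : ℝ) ≤ c := Nat.cast_nonneg c
  have hj1 : (j : ℝ) < q * n := by exact_mod_cast hj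
  have hj0 : (0 : ℝ) ≤ j := Nat.cast_nonneg j
  have hT : (Tw r n : ℝ) = (2 * r + 1) * n + 1 := by unfold Tw; push_cast; ring
  have hev : (WP q r n c).eval (j : ℝ) =
      (bet q r n * ∏ i ∈ range (Tw r n),
        ((j : ℝ) + ((c : ℝ) - q * ((r + 1) * n) + q * i))) ^ 3 := by
    simp only [WP, eval_pow, eval_mul, eval_C, eval_prod, eval_add, eval_X]
  rw [hev, abs_pow]
  have hbet : |bet q r n| = bet q r n := abs_of_nonneg (by unfold bet; positivity)
  have hprod : |∏ i ∈ range (Tw r n), ((j : ℝ) + ((c : ℝ) - q * ((r + 1) * n) + q * i))| ≤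
      ((q : ℝ) * (Tw r n : ℝ)) ^ (Tw r n) := by
    rw [Finset.abs_prod]
    calc ∏ i ∈ range (Tw r n), |(j : ℝ) + ((c : ℝ) - q * ((r + 1) * n) + q * i)|
        ≤ ∏ _i ∈ range (Tw r n), ((q : ℝ) * (Tw r n : ℝ)) := by
          refine Finset.prod_le_prod (fun _ _ => abs_nonneg _) fun i hi => ?_
          have hi1 : (i : ℝ) ≤ (2 * r + 1) * n := by
            have h2 := Finset.mem_range.mp hi
            unfold Tw at h2
            exact_mod_cast (by omega : i ≤ (2 * r + 1) * n)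
          have hi0 : (0 : ℝ) ≤ i := Nat.cast_nonneg i
          have hqn : (0 : ℝ) ≤ q * n := by positivity
          have hqrn : (0 : ℝ) ≤ q * (r * n) := by positivity
          have hqi : (q : ℝ) * i ≤ q * ((2 * r + 1) * n) := by gcongr
          have hqi0 : (0 : ℝ) ≤ q * i := by positivity
          rw [hT, abs_le]
          constructor
          · nlinarith
          · nlinarith
      _ = ((q : ℝ) * (Tw r n : ℝ)) ^ (Tw r n) := by
          rw [Finset.prod_const, Finset.card_range]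
  have hlcm : (Nat.lcmUpto (Tw r n) : ℝ) ≤ 2 ^ (8 * Tw r n) := by
    exact_mod_cast lcm_le (Tw r n)
  have hexp : ((Tw r n : ℕ) : ℝ) ^ (Tw r n) / ((Tw r n).factorial : ℝ) ≤
      Real.exp ((Tw r n : ℕ) : ℝ) := Real.pow_div_factorial_le_exp _ (Nat.cast_nonneg _) _
  have hfac : (0 : ℝ) < ((Tw r n).factorial : ℝ) := by exact_mod_cast Nat.factorial_pos _
  refine pow_le_pow_left₀ (abs_nonneg _) ?_ 3
  rw [abs_mul, hbet]
  calc bet q r n * |∏ i ∈ range (Tw r n), ((j : ℝ) + ((c : ℝ) - q * ((r + 1) * n) + q * i))|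
      ≤ bet q r n * ((q : ℝ) * (Tw r n : ℝ)) ^ (Tw r n) := by
        have : 0 ≤ bet q r n := by unfold bet; positivity
        gcongr
    _ = (q : ℝ) ^ (2 * Tw r n) * (Nat.lcmUpto (Tw r n) : ℝ) *
          ((Tw r n : ℝ) ^ (Tw r n) / ((Tw r n).factorial : ℝ)) := by
        rw [bet, mul_pow, two_mul (Tw r n), pow_add]
        ring
    _ ≤ (q : ℝ) ^ (2 * Tw r n) * 2 ^ (8 * Tw r n) * Real.exp (Tw r n) := by
        gcongr

theorem W_natDegree (q r n c : ℕ) : (WP q r n c).natDegree ≤ 3 * Tw r n := by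
  unfold WP
  refine natDegree_pow_le.trans ?_
  refine Nat.mul_le_mul_left 3 ?_
  refine (natDegree_C_mul_le _ _).trans ?_
  refine (natDegree_prod_le _ _).trans ?_
  calc ∑ i ∈ range (Tw r n), (X + C ((c : ℝ) - q * ((r + 1) * n) + q * i) : ℝ[X]).natDegree
      ≤ ∑ _i ∈ range (Tw r n), 1 := Finset.sum_le_sum fun i _ => by rw [natDegree_X_add_C]
    _ = Tw r n := by simp

theorem W_ne {q r n c : ℕ} (hq : 1 ≤ q) : WP q r n c ≠ 0 := by
  unfold WP
  refine pow_ne_zero 3 (mul_ne_zero ?_ ?_)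
  · have hq0 : (0 : ℝ) < q := by exact_mod_cast hq
    have hl : (0 : ℝ) < (Nat.lcmUpto (Tw r n) : ℝ) := by exact_mod_cast Nat.lcmUpto_pos _
    have hf : (0 : ℝ) < ((Tw r n).factorial : ℝ) := by exact_mod_cast Nat.factorial_pos _
    have hb : bet q r n ≠ 0 := by
      unfold bet
      positivity
    exact C_ne_zero.mpr hb
  · exact Finset.prod_ne_zero_iff.mpr fun i _ => X_add_C_ne_zero _

end HZ8
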