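import Pool.Agent.LibHZ8.Defs

/-!
# Row C3: the sum over the integers minus the window (MEDIUM, template LibHZ7/C3.lean)

`SS_split` as in LibHZ7/C3.lean with the window `-(r + 1) n ≤ t ≤ r n`.
-/

namespace HZ8

open Finset HZ89 Polynomial

private theorem c3_summable {f : ℕ → ℝ} (h0 : ∀ m, 0 ≤ f m)
    (h : ∀ m : ℕ, f m ≤ 1 / ((m : ℝ) + 1) ^ 3) : Summable f := by
  refine Summable.of_nonneg_of_le h0 h ?_
  have := (summable_nat_add_iff 1).2 (Real.summable_one_div_nat_pow.2 (by norm_num : 1 < 3))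
  simpa using this

theorem SS_split {q r n : ℕ} (hq : 1 ≤ q) (hr : 1 ≤ r) (hn : 1 ≤ n) {u : ℝ} (h0 : 0 ≤ u)
    (h1 : u < q * (n + 1)) :
    HZ7.SS q u = ps q r n u + (∑' m : ℕ, 1 / (u + q * (r * n + 1 + m)) ^ 3 +
      ∑' m : ℕ, 1 / (q * ((r + 1) * n + 1 + m) - u) ^ 3) := by
  have hqr : (1 : ℝ) ≤ q := by exact_mod_cast hq
  have hnr : (1 : ℝ) ≤ n := by exact_mod_cast hn
  have hrr : (1 : ℝ) ≤ r := by exact_mod_cast hr
  have hrn : (1 : ℝ) ≤ (r : ℝ) * n := by nlinarith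
  have hpos1 : ∀ m : ℕ, (m : ℝ) + 1 ≤ u + q * (r * n + 1 + m) := by
    intro m
    have hm : (0 : ℝ) ≤ m := Nat.cast_nonneg m
    have h2 : (0 : ℝ) ≤ (q - 1) * (r * n + 1 + m) :=
      mul_nonneg (by linarith) (by linarith)
    linarith
  have hpos2 : ∀ m : ℕ, (m : ℝ) + 1 ≤ q * ((r + 1) * n + 1 + m) - u := by
    intro m
    have hm : (0 : ℝ) ≤ m := Nat.cast_nonneg m
    have h2 : (0 : ℝ) ≤ (q - 1) * (r * n + m) :=
      mul_nonneg (by linarith) (by linarith)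
    linarith
  have hg1 : ∀ m : ℕ, 0 < (m : ℝ) + 1 := fun m => by positivity
  have e1 : ∀ m : ℕ, 1 / |u - q * ((r + 1) * n) + q * (((m + ((2 * r + 1) * n + 1) : ℕ) : ℤ) : ℝ)|
      ^ 3 = 1 / (u + q * (r * n + 1 + m)) ^ 3 := by
    intro m
    have h2 : u - q * ((r + 1) * n) + q * (((m + ((2 * r + 1) * n + 1) : ℕ) : ℤ) : ℝ) =
        u + q * (r * n + 1 + m) := by
      push_cast
      ring
    rw [h2, abs_of_pos (lt_of_lt_of_le (hg1 m) (hpos1 m))]
  have e2 : ∀ m : ℕ, 1 / |u - q * ((r + 1) * n) + q * ((-((m : ℤ) + 1) : ℤ) : ℝ)| ^ 3 =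
      1 / (q * ((r + 1) * n + 1 + m) - u) ^ 3 := by
    intro m
    have h2 : u - q * ((r + 1) * n) + q * ((-((m : ℤ) + 1) : ℤ) : ℝ) =
        -(q * ((r + 1) * n + 1 + m) - u) := by
      push_cast
      ring
    rw [h2, abs_neg, abs_of_pos (lt_of_lt_of_le (hg1 m) (hpos2 m))]
  have s1 : Summable fun m : ℕ => 1 / (u + q * (r * n + 1 + m)) ^ 3 := by
    refine c3_summable (fun m => ?_) (fun m => ?_)
    · have := lt_of_lt_of_le (hg1 m) (hpos1 m)
      positivity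
    · exact one_div_le_one_div_of_le (pow_pos (hg1 m) 3)
        (pow_le_pow_left₀ (hg1 m).le (hpos1 m) 3)
  have s2 : Summable fun m : ℕ => 1 / (q * ((r + 1) * n + 1 + m) - u) ^ 3 := by
    refine c3_summable (fun m => ?_) (fun m => ?_)
    · have := lt_of_lt_of_le (hg1 m) (hpos2 m)
      positivity
    · exact one_div_le_one_div_of_le (pow_pos (hg1 m) 3)
        (pow_le_pow_left₀ (hg1 m).le (hpos2 m) 3)
  have s3 : Summable fun m : ℕ => 1 / |u - q * ((r + 1) * n) + q * ((m : ℤ) : ℝ)| ^ 3 := by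
    rw [← summable_nat_add_iff ((2 * r + 1) * n + 1)]
    exact s1.congr fun m => (e1 m).symm
  have s4 : Summable fun m : ℕ => 1 / |u - q * ((r + 1) * n) + q * ((-((m : ℤ) + 1) : ℤ) : ℝ)| ^ 3 :=
    s2.congr fun m => (e2 m).symm
  have h3 : HZ7.SS q u = ∑' i : ℤ, 1 / |u - q * ((r + 1) * n) + q * (i : ℝ)| ^ 3 := by
    unfold HZ7.SS
    rw [← (Equiv.subRight (((r : ℤ) + 1) * n)).tsum_eq]
    refine tsum_congr fun i => ?_
    have h4 : u + (q : ℝ) * (((Equiv.subRight (((r : ℤ) + 1) * n)) i : ℤ) : ℝ) =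
        u - q * ((r + 1) * n) + q * (i : ℝ) := by
      simp only [Equiv.subRight_apply]
      push_cast
      ring
    rw [h4]
  rw [h3, tsum_of_nat_of_neg_add_one
    (f := fun i : ℤ => 1 / |u - q * ((r + 1) * n) + q * (i : ℝ)| ^ 3)
    s3 s4, ← s3.sum_add_tsum_nat_add ((2 * r + 1) * n + 1), tsum_congr e1, tsum_congr e2, add_assoc]
  unfold ps Tw
  simp only [Int.cast_natCast]

end HZ8
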