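import Pool.Agent.LibHZ8.C2
import Pool.Agent.LibHZ8.C3

/-!
# Row C4: polynomial approximation of the tails (MEDIUM, template LibHZ7/C4.lean)

`h = q n / 2`, `v = j - q n / 2`, `|v| ≤ h`, `e = 1 / (2 r + 1) ≤ 1/3`.  First tail:
`j + c + q (r n + 1 + m) = a m + v` with `a m = c + q (r n + 1 + m) + q n / 2`, `a m * e ≥ h` since
`a m ≥ q n (r + 1/2) = (2 r + 1) h`; second tail: `q ((r+1) n + 1 + m) - (j + c) = a' m + (-v)` with
`a' m = q ((r+1) n + 1 + m) - c - q n / 2 ≥ (2 r + 1) h` (`c < q`).  Both are `≥ m + 1`, sums `≤ 2`.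
-/

namespace HZ8

open Finset HZ89 Polynomial

private theorem c4_sum {a : ℕ → ℝ} (ha : ∀ m : ℕ, (m : ℝ) + 1 ≤ a m) :
    (Summable fun m => 1 / a m ^ 3) ∧ ∑' m, 1 / a m ^ 3 ≤ 2 := by
  have h1 : ∀ m : ℕ, 1 / a m ^ 3 ≤ 1 / ((m : ℝ) + 1) ^ 2 := by
    intro m
    have h2 : (1 : ℝ) ≤ (m : ℝ) + 1 := by
      have : (0 : ℝ) ≤ m := Nat.cast_nonneg m
      linarith
    have h3 := ha m
    apply one_div_le_one_div_of_le (by positivity)
    calc ((m : ℝ) + 1) ^ 2 ≤ ((m : ℝ) + 1) ^ 3 := pow_le_pow_right₀ h2 (by norm_num)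
      _ ≤ a m ^ 3 := pow_le_pow_left₀ (by linarith) h3 3
  have h0 : ∀ m : ℕ, 0 ≤ 1 / a m ^ 3 := by
    intro m
    have h3 := ha m
    have h4 : (0 : ℝ) ≤ m := Nat.cast_nonneg m
    have h5 : 0 < a m := by linarith
    positivity
  have hs : Summable fun m => 1 / a m ^ 3 := Summable.of_nonneg_of_le h0 h1 d2_hasSum.summable
  exact ⟨hs, (hs.tsum_le_tsum h1 d2_hasSum.summable).trans (d2_hasSum.tsum_eq.le.trans d2_pi)⟩

private theorem c4_deg {G L : ℝ[X]} {D : ℕ} (hG : G.natDegree < D) (hL : L.natDegree ≤ 1) :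
    (G.comp L).natDegree < D := by
  refine lt_of_le_of_lt natDegree_comp_le ?_
  calc G.natDegree * L.natDegree ≤ G.natDegree * 1 := Nat.mul_le_mul_left _ hL
    _ = G.natDegree := mul_one _
    _ < D := hG

theorem tail_poly {q r n c D : ℕ} (hq : 1 ≤ q) (hr : 1 ≤ r) (hn : 1 ≤ n) (hc : c < q)
    (hD : 1 ≤ D) : ∃ G : ℝ[X], G.natDegree < D ∧ ∀ j : ℕ, j < q * n →
      |HZ7.SS q ((j : ℝ) + c) - ps q r n ((j : ℝ) + c) - G.eval (j : ℝ)| ≤
        12 * ((D : ℝ) + 2) ^ 2 * (1 / (2 * (r : ℝ) + 1)) ^ D := by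
  have hq' : (1 : ℝ) ≤ q := by exact_mod_cast hq
  have hn' : (1 : ℝ) ≤ n := by exact_mod_cast hn
  have hr' : (1 : ℝ) ≤ r := by exact_mod_cast hr
  have hc' : (c : ℝ) < q := by exact_mod_cast hc
  have hc0 : (0 : ℝ) ≤ c := Nat.cast_nonneg c
  have hqn : (q : ℝ) ≤ q * n := by nlinarith
  have hrn : (1 : ℝ) ≤ (r : ℝ) * n := by nlinarith
  have hqrn : (1 : ℝ) ≤ (q : ℝ) * (r * n) := by nlinarith
  set h : ℝ := q * n / 2 with hh
  have hh0 : 0 < h := by
    rw [hh]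
    positivity
  set e : ℝ := 1 / (2 * (r : ℝ) + 1) with he
  have he0 : 0 < e := by positivity
  have he1 : e ≤ 1 / 3 := by
    rw [he]
    exact one_div_le_one_div_of_le (by norm_num) (by linarith)
  have hlow : ∀ a : ℝ, q * (r * n) + h ≤ a → h ≤ a * e := by
    intro a ha
    rw [he, mul_one_div, le_div_iff₀ (by positivity)]
    have h2 : h * (2 * (r : ℝ) + 1) = q * (r * n) + h := by
      rw [hh]
      ring
    rw [h2]
    exact ha
  have hqm : ∀ m : ℕ, (m : ℝ) ≤ q * m := fun m => by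
    have : (0 : ℝ) ≤ m := Nat.cast_nonneg m
    nlinarith
  obtain ⟨s1, t1⟩ := c4_sum (a := fun m : ℕ => (c : ℝ) + q * (r * n + 1 + m) + h) (fun m => by
    have h1 := hqm m
    show (m : ℝ) + 1 ≤ (c : ℝ) + q * (r * n + 1 + m) + h
    have h2 : (q : ℝ) * (r * n + 1 + m) = q * (r * n) + q + q * m := by ring
    rw [h2]
    linarith)
  obtain ⟨s2, t2⟩ := c4_sum (a := fun m : ℕ => (q : ℝ) * ((r + 1) * n + 1 + m) - c - h) (fun m => by
    have h1 := hqm m
    show (m : ℝ) + 1 ≤ (q : ℝ) * ((r + 1) * n + 1 + m) - c - h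
    have h2 : (q : ℝ) * ((r + 1) * n + 1 + m) = q * (r * n) + 2 * h + q + q * m := by
      rw [hh]
      ring
    rw [h2]
    linarith)
  obtain ⟨G1, d1, e1⟩ := sum_taylor hh0 he0 he1 (fun m => by
    have h1 := hqm m
    have h3 : (0 : ℝ) ≤ m := Nat.cast_nonneg m
    show h ≤ ((c : ℝ) + q * (r * n + 1 + m) + h) * e
    refine hlow _ ?_
    have h2 : (q : ℝ) * (r * n + 1 + m) = q * (r * n) + q + q * m := by ring
    rw [h2]
    linarith) s1 t1 hD
  obtain ⟨G2, d2, e2⟩ := sum_taylor hh0 he0 he1 (fun m => by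
    have h1 := hqm m
    have h3 : (0 : ℝ) ≤ m := Nat.cast_nonneg m
    show h ≤ ((q : ℝ) * ((r + 1) * n + 1 + m) - c - h) * e
    refine hlow _ ?_
    have h2 : (q : ℝ) * ((r + 1) * n + 1 + m) = q * (r * n) + 2 * h + q + q * m := by
      rw [hh]
      ring
    rw [h2]
    linarith) s2 t2 hD
  refine ⟨G1.comp (X - C h) + G2.comp (C h - X), ?_, fun j hj => ?_⟩
  · refine lt_of_le_of_lt (natDegree_add_le _ _) (max_lt (c4_deg d1 ?_) (c4_deg d2 ?_))
    · compute_degree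
    · compute_degree
  · have hj' : (j : ℝ) < q * n := by exact_mod_cast hj
    have hj0 : (0 : ℝ) ≤ j := Nat.cast_nonneg j
    have hv : |(j : ℝ) - h| ≤ h := by
      rw [abs_le]
      constructor <;> linarith
    have hv' : |h - (j : ℝ)| ≤ h := by
      rw [abs_sub_comm]
      exact hv
    have h1 := e1 _ hv
    have h2 := e2 _ hv'
    rw [SS_split hq hr hn (u := (j : ℝ) + c) (by positivity) (by nlinarith)]
    simp only [eval_add, eval_comp, eval_sub, eval_X, eval_C]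
    have f1 : (fun m : ℕ => 1 / ((c : ℝ) + q * (r * n + 1 + m) + h + ((j : ℝ) - h)) ^ 3) =
        fun m : ℕ => 1 / ((j : ℝ) + c + q * (r * n + 1 + m)) ^ 3 := by
      funext m
      congr 2
      ring
    have f2 : (fun m : ℕ => 1 / ((q : ℝ) * ((r + 1) * n + 1 + m) - c - h + (h - (j : ℝ))) ^ 3) =
        fun m : ℕ => 1 / ((q : ℝ) * ((r + 1) * n + 1 + m) - ((j : ℝ) + c)) ^ 3 := by
      funext m
      congr 2
      ring
    rw [f1] at h1
    rw [f2] at h2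
    set A := ∑' m : ℕ, 1 / ((j : ℝ) + c + q * (r * n + 1 + m)) ^ 3
    set B := ∑' m : ℕ, 1 / ((q : ℝ) * ((r + 1) * n + 1 + m) - ((j : ℝ) + c)) ^ 3
    have h3 : ps q r n ((j : ℝ) + c) + (A + B) - ps q r n ((j : ℝ) + c) -
        (eval ((j : ℝ) - h) G1 + eval (h - (j : ℝ)) G2) =
        (A - eval ((j : ℝ) - h) G1) + (B - eval (h - (j : ℝ)) G2) := by ring
    rw [h3]
    refine (abs_add_le _ _).trans ((add_le_add h1 h2).trans (le_of_eq ?_))
    ring

end HZ8
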