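import Pool.Agent.LibHZ7.Par

/-!
# Row CNT: counting form of the sumset theorem (SHORT/MEDIUM)

`L = log q`, `S = finrank V + 1`.  Put `α = ⌈8 S L²⌉₊ ≤ #A`, and `A' ⊆ A` of cardinality `α`
(`Finset.exists_subset_card_eq`).  Let `B' = {b ∈ B : ∀ a ∈ A', (a + b) % q ∉ G}`.  Then
`#B ≤ #B' + α * #G` (`b ∈ B \ B'`: some `a ∈ A'` with `(a + b) % q ∈ G`; for given `a` the map `b ↦ (a + b) % q` is
injective on `b < q`).  If `160 S² L² ≤ #B'`, `HZ7.sumset` for `A'`, `B'` gives `a`, `b` with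
`hur ((a+b)/q) ∉ V + Q`, so `(a + b) % q ∈ G` by `hG`: contradiction to `b ∈ B'`.  So `#B' < 160 S² L² ≤ #B / 2` and
`#B / 2 ≤ α * #G ≤ 9 S L² * #G`: here `α ≤ 8 S L² + 1 ≤ 9 S L²`, as `S L² ≥ 1`: `L ≥ 9`, by `HZ7.exp_small`
(`160 L² ≤ #B ≤ q = exp L`, as in the proof of `HZ7.sumset`).
-/

namespace HZ8

open Finset HZ89

theorem sumset_count {q : ℕ} (hq : 2 ≤ q) (V : Submodule ℚ ℝ) (hV : Module.Finite ℚ V)
    (A B G : Finset ℕ) (hA : ∀ a ∈ A, a < q) (hB : ∀ b ∈ B, b < q)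
    (hAc : 8 * ((Module.finrank ℚ V : ℝ) + 1) * Real.log q ^ 2 ≤ A.card)
    (hBc : 320 * ((Module.finrank ℚ V : ℝ) + 1) ^ 2 * Real.log q ^ 2 ≤ B.card)
    (hG : ∀ a ∈ A, ∀ b ∈ B,
      hur (((a + b : ℕ) : ℝ) / q) ∉ V ⊔ Submodule.span ℚ {(1 : ℝ)} → (a + b) % q ∈ G) :
    (B.card : ℝ) ≤ 18 * ((Module.finrank ℚ V : ℝ) + 1) * Real.log q ^ 2 * G.card := by
  classical
  have hqr : (2 : ℝ) ≤ q := by exact_mod_cast hq
  have hS0 : (1 : ℝ) ≤ (Module.finrank ℚ V : ℝ) + 1 := by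
    have : (0 : ℝ) ≤ (Module.finrank ℚ V : ℝ) := Nat.cast_nonneg _
    linarith
  have hsum := HZ7.sumset hq V hV
  set S : ℝ := (Module.finrank ℚ V : ℝ) + 1 with hS
  set L := Real.log q with hLdef
  have hL1 : 0.69 ≤ L := by
    have h1 := Real.log_two_gt_d9
    have h2 : Real.log 2 ≤ Real.log q := Real.log_le_log (by norm_num) hqr
    linarith
  have hBq : B.card ≤ q := by
    have h1 : B ⊆ range q := fun b hb => mem_range.2 (hB b hb)
    simpa using card_le_card h1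
  have hS2 : (1 : ℝ) ≤ S ^ 2 := by nlinarith
  have hL9 : 9 ≤ L := by
    apply HZ7.exp_small hL1
    rw [hLdef, Real.exp_log (by linarith), ← hLdef]
    have h1 : (B.card : ℝ) ≤ q := by exact_mod_cast hBq
    have h3 : 160 * L ^ 2 ≤ 320 * S ^ 2 * L ^ 2 := by
      have := mul_le_mul_of_nonneg_right hS2 (by positivity : (0 : ℝ) ≤ 320 * L ^ 2)
      nlinarith [sq_nonneg L]
    linarith
  have hSL : (1 : ℝ) ≤ S * L ^ 2 := by
    have h1 : (1 : ℝ) ≤ L ^ 2 := by nlinarith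
    nlinarith
  obtain ⟨A', hA', hA'c⟩ : ∃ A' ⊆ A, A'.card = ⌈8 * S * L ^ 2⌉₊ := by
    apply Finset.exists_subset_card_eq
    exact Nat.ceil_le.2 hAc
  have hc1 : 8 * S * L ^ 2 ≤ (A'.card : ℝ) := by
    rw [hA'c]
    exact Nat.le_ceil _
  have hc2 : (A'.card : ℝ) ≤ 9 * (S * L ^ 2) := by
    rw [hA'c]
    have := Nat.ceil_lt_add_one (show (0 : ℝ) ≤ 8 * S * L ^ 2 by positivity)
    nlinarith
  set B' := B.filter (fun b => ∀ a ∈ A', (a + b) % q ∉ G) with hB'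
  have hB'lt : (B'.card : ℝ) < 160 * S ^ 2 * L ^ 2 := by
    by_contra hcon
    push Not at hcon
    obtain ⟨a, ha, b, hb, hab⟩ := hsum A' B' (fun a ha => hA a (hA' ha))
      (fun b hb => hB b (mem_filter.1 hb).1) hc1 hcon
    exact (mem_filter.1 hb).2 a ha (hG a (hA' ha) b (mem_filter.1 hb).1 hab)
  have hcov : B ⊆ B' ∪ A'.biUnion (fun a => B.filter (fun b => (a + b) % q ∈ G)) := by
    intro b hb
    by_cases h : ∀ a ∈ A', (a + b) % q ∉ G
    · exact mem_union_left _ (mem_filter.2 ⟨hb, h⟩)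
    · push Not at h
      obtain ⟨a, ha, hab⟩ := h
      exact mem_union_right _ (mem_biUnion.2 ⟨a, ha, mem_filter.2 ⟨hb, hab⟩⟩)
  have hfib : ∀ a ∈ A', (B.filter (fun b => (a + b) % q ∈ G)).card ≤ G.card := by
    intro a _
    apply Finset.card_le_card_of_injOn (fun b => (a + b) % q)
    · intro b hb
      exact (mem_filter.1 hb).2
    · intro b hb b' hb' h
      have h1 : b < q := hB b (mem_filter.1 hb).1
      have h2 : b' < q := hB b' (mem_filter.1 hb').1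
      have h3 : (a + b) ≡ (a + b') [MOD q] := h
      have h4 := Nat.ModEq.add_left_cancel' a h3
      exact Nat.ModEq.eq_of_lt_of_lt h4 h1 h2
  have hcard : B.card ≤ B'.card + A'.card * G.card := by
    calc B.card ≤ _ := card_le_card hcov
      _ ≤ _ := card_union_le _ _
      _ ≤ B'.card + A'.card * G.card := by
        have := Finset.card_biUnion_le_card_mul A' (fun a => B.filter (fun b => (a + b) % q ∈ G))
          G.card hfib
        omega
  have hcardr : (B.card : ℝ) ≤ B'.card + A'.card * G.card := by exact_mod_cast hcard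
  have hG0 : (0 : ℝ) ≤ G.card := Nat.cast_nonneg _
  have h5 : (A'.card : ℝ) * G.card ≤ 9 * (S * L ^ 2) * G.card :=
    mul_le_mul_of_nonneg_right hc2 hG0
  linarith

end HZ8
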