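import Mathlib

/-!
# Row CP1: residues with prescribed classes (MEDIUM, elementary, ONLY MATHLIB)

`count_res` by induction on the finite set `P` of primes (for all `q` with `∏ P ∣ q`; Chinese remainder): for `P = insert p P'`,
`Q = ∏ P'`: the number for `q` is `q / (p Q)` times the number for `p Q` (`Nat.filter_Ico_card_eq_of_periodic` or
`Nat.count_modEq_card`; the condition is periodic modulo `p Q`), and for `p Q` the map `a ↦ (a % p, a % Q)` is a bijection of
`range (p Q)` onto `range p ×ˢ range Q` (`Nat.chineseRemainder`).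
`sizes`: `S p = range (p / 2)`: `#(S p) = p / 2 ≥ p / 3`, resp. `S p = Icc 1 (p - p / 2)`, `#(S p) = p - p / 2 ≥ p / 2`.
-/

namespace HZ8

open Finset

private theorem CP1_periodic {p : ℕ → Prop} [DecidablePred p] {k : ℕ} (hp : Function.Periodic p k)
    (m : ℕ) : ((range (m * k)).filter p).card = m * ((range k).filter p).card := by
  induction m with
  | zero => simp
  | succ m ih =>
    have h1 : range ((m + 1) * k) = range (m * k) ∪ Ico (m * k) (m * k + k) := by
      ext a
      simp only [mem_range, mem_union, mem_Ico]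
      constructor
      · intro h
        rcases lt_or_ge a (m * k) with h2 | h2
        · exact Or.inl h2
        · refine Or.inr ⟨h2, ?_⟩
          calc a < (m + 1) * k := h
            _ = m * k + k := by ring
      · rintro (h | ⟨_, h⟩)
        · calc a < m * k := h
            _ ≤ (m + 1) * k := Nat.mul_le_mul_right k (Nat.le_succ m)
        · calc a < m * k + k := h
            _ = (m + 1) * k := by ring
    have h2 : Disjoint ((range (m * k)).filter p) ((Ico (m * k) (m * k + k)).filter p) := by
      refine disjoint_filter_filter ?_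
      rw [disjoint_left]
      intro a ha hb
      rw [mem_range] at ha
      rw [mem_Ico] at hb
      omega
    rw [h1, filter_union, card_union_of_disjoint h2, ih, Nat.filter_Ico_card_eq_of_periodic _ _ _ hp,
      Nat.count_eq_card_filter_range]
    ring

private theorem CP1_crt {p Q : ℕ} (hp : 0 < p) (hQ : 0 < Q) (hco : Nat.Coprime p Q) (S : Finset ℕ)
    (hS : S ⊆ range p) (c : ℕ → Prop) [DecidablePred c] :
    ((range (p * Q)).filter (fun a => a % p ∈ S ∧ c (a % Q))).card =
      S.card * ((range Q).filter c).card := by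
  rw [← card_product]
  refine card_bij' (fun a _ => (a % p, a % Q))
    (fun b _ => (Nat.chineseRemainder hco b.1 b.2 : ℕ)) ?_ ?_ ?_ ?_
  · intro a ha
    rw [mem_filter] at ha
    rw [mem_product, mem_filter, mem_range]
    exact ⟨ha.2.1, Nat.mod_lt _ hQ, ha.2.2⟩
  · rintro ⟨u, v⟩ hb
    rw [mem_product, mem_filter, mem_range] at hb
    obtain ⟨hu, hv, hc⟩ := hb
    have hup : u < p := mem_range.1 (hS hu)
    have h1 : (Nat.chineseRemainder hco u v : ℕ) ≡ u [MOD p] := (Nat.chineseRemainder hco u v).2.1
    have h2 : (Nat.chineseRemainder hco u v : ℕ) ≡ v [MOD Q] := (Nat.chineseRemainder hco u v).2.2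
    have h1' : (Nat.chineseRemainder hco u v : ℕ) % p = u := by
      rw [h1, Nat.mod_eq_of_lt hup]
    have h2' : (Nat.chineseRemainder hco u v : ℕ) % Q = v := by
      rw [h2, Nat.mod_eq_of_lt hv]
    rw [mem_filter, mem_range]
    refine ⟨Nat.chineseRemainder_lt_mul hco u v hp.ne' hQ.ne', ?_, ?_⟩
    · simpa only [h1'] using hu
    · simpa only [h2'] using hc
  · intro a ha
    rw [mem_filter, mem_range] at ha
    have h1 : (Nat.chineseRemainder hco (a % p) (a % Q) : ℕ) ≡ a [MOD p * Q] := by
      rw [← Nat.modEq_and_modEq_iff_modEq_mul hco]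
      exact ⟨(Nat.chineseRemainder hco (a % p) (a % Q)).2.1.trans (Nat.mod_modEq a p),
        (Nat.chineseRemainder hco (a % p) (a % Q)).2.2.trans (Nat.mod_modEq a Q)⟩
    exact Nat.ModEq.eq_of_lt_of_lt h1
      (Nat.chineseRemainder_lt_mul hco _ _ hp.ne' hQ.ne') ha.1
  · rintro ⟨u, v⟩ hb
    rw [mem_product, mem_filter, mem_range] at hb
    obtain ⟨hu, hv, hc⟩ := hb
    have hup : u < p := mem_range.1 (hS hu)
    have hv' : v < Q := hv
    have h1 : (Nat.chineseRemainder hco u v : ℕ) ≡ u [MOD p] := (Nat.chineseRemainder hco u v).2.1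
    have h2 : (Nat.chineseRemainder hco u v : ℕ) ≡ v [MOD Q] := (Nat.chineseRemainder hco u v).2.2
    refine Prod.ext ?_ ?_
    · change (Nat.chineseRemainder hco u v : ℕ) % p = u
      rw [h1, Nat.mod_eq_of_lt hup]
    · change (Nat.chineseRemainder hco u v : ℕ) % Q = v
      rw [h2, Nat.mod_eq_of_lt hv']

theorem count_res (P : Finset ℕ) (hP : ∀ p ∈ P, p.Prime) (S : ℕ → Finset ℕ)
    (hS : ∀ p ∈ P, S p ⊆ range p) (q : ℕ) (hq : ∏ p ∈ P, p ∣ q) :
    ((range q).filter (fun a => ∀ p ∈ P, a % p ∈ S p)).card * ∏ p ∈ P, p =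
      q * ∏ p ∈ P, (S p).card := by
  classical
  induction P using Finset.induction_on generalizing q with
  | empty => simp
  | insert p P' hp ih =>
    have hpp : p.Prime := hP p (mem_insert_self p P')
    have hP' : ∀ r ∈ P', r.Prime := fun r hr => hP r (mem_insert_of_mem hr)
    have hS' : ∀ r ∈ P', S r ⊆ range r := fun r hr => hS r (mem_insert_of_mem hr)
    have hIH := ih hP' hS'
    rw [prod_insert hp] at hq
    have hQ0 : 0 < ∏ r ∈ P', r := prod_pos fun r hr => (hP' r hr).pos
    have hco : Nat.Coprime p (∏ r ∈ P', r) := by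
      rw [Nat.coprime_prod_right_iff]
      intro r hr
      rw [Nat.coprime_primes hpp (hP' r hr)]
      rintro rfl
      exact hp hr
    obtain ⟨m, hm⟩ := hq
    have hdvd : ∀ r ∈ P', r ∣ ∏ r ∈ P', r := fun r hr => dvd_prod_of_mem (fun r => r) hr
    -- the number for the product
    have h1 : ((range (p * ∏ r ∈ P', r)).filter
        (fun a => ∀ r ∈ insert p P', a % r ∈ S r)).card =
        (S p).card * ∏ r ∈ P', (S r).card := by
      have h2 : ((range (p * ∏ r ∈ P', r)).filter
          (fun a => ∀ r ∈ insert p P', a % r ∈ S r)) =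
          ((range (p * ∏ r ∈ P', r)).filter
            (fun a => a % p ∈ S p ∧ ∀ r ∈ P', (a % ∏ r ∈ P', r) % r ∈ S r)) := by
        refine filter_congr fun a _ => ?_
        rw [forall_mem_insert]
        refine and_congr_right fun _ => forall₂_congr fun r hr => ?_
        rw [Nat.mod_mod_of_dvd a (hdvd r hr)]
      have h3 := CP1_crt hpp.pos hQ0 hco (S p) (hS p (mem_insert_self p P'))
        (fun b => ∀ r ∈ P', b % r ∈ S r)
      have h4 := hIH (∏ r ∈ P', r) dvd_rfl
      have h5 : ((range (∏ r ∈ P', r)).filter (fun b => ∀ r ∈ P', b % r ∈ S r)).card =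
          ∏ r ∈ P', (S r).card := by
        have h6 : (∏ r ∈ P', r) *
            ((range (∏ r ∈ P', r)).filter (fun b => ∀ r ∈ P', b % r ∈ S r)).card =
            (∏ r ∈ P', r) * ∏ r ∈ P', (S r).card := by
          rw [mul_comm]; exact h4
        exact Nat.eq_of_mul_eq_mul_left hQ0 h6
      rw [h2, h3, h5]
    have hper : Function.Periodic (fun a : ℕ => ∀ r ∈ insert p P', a % r ∈ S r)
        (p * ∏ r ∈ P', r) := by
      intro a
      refine propext (forall₂_congr fun r hr => ?_)
      have hrd : r ∣ p * ∏ r ∈ P', r := by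
        rcases mem_insert.1 hr with rfl | hr
        · exact dvd_mul_right _ _
        · exact (hdvd r hr).mul_left p
      have h7 : (a + p * ∏ r ∈ P', r) % r = a % r := by
        obtain ⟨t, ht⟩ := hrd
        rw [ht, Nat.add_mul_mod_self_left]
      rw [h7]
    have h8 := CP1_periodic hper m
    have h9 : q = m * (p * ∏ r ∈ P', r) := by rw [hm]; ring
    rw [prod_insert hp, prod_insert hp]
    rw [← h9, h1] at h8
    rw [h8, h9]
    ring

theorem sizeA {q : ℕ} (hq : 1 ≤ q) :
    q ≤ 3 ^ q.primeFactors.card *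
      ((range q).filter (fun a => ∀ p ∈ q.primeFactors, a % p < p / 2)).card := by
  have h1 := count_res q.primeFactors (fun p hp => Nat.prime_of_mem_primeFactors hp)
    (fun p => range (p / 2)) (fun p _ => range_subset_range.2 (Nat.div_le_self p 2)) q
    (Nat.prod_primeFactors_dvd q)
  simp only [mem_range, card_range] at h1
  have hpos : 0 < ∏ p ∈ q.primeFactors, p :=
    prod_pos fun p hp => (Nat.prime_of_mem_primeFactors hp).pos
  have h2 : ∏ p ∈ q.primeFactors, p ≤ ∏ p ∈ q.primeFactors, (3 * (p / 2)) := by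
    refine prod_le_prod' fun p hp => ?_
    have := (Nat.prime_of_mem_primeFactors hp).two_le
    omega
  rw [prod_mul_distrib, prod_const] at h2
  refine Nat.le_of_mul_le_mul_right ?_ hpos
  calc q * ∏ p ∈ q.primeFactors, p
      ≤ q * (3 ^ q.primeFactors.card * ∏ p ∈ q.primeFactors, p / 2) := Nat.mul_le_mul_left q h2
    _ = 3 ^ q.primeFactors.card * (q * ∏ p ∈ q.primeFactors, p / 2) := by ring
    _ = 3 ^ q.primeFactors.card *
        ((range q).filter (fun a => ∀ p ∈ q.primeFactors, a % p < p / 2)).card *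
          ∏ p ∈ q.primeFactors, p := by rw [← h1]; ring

theorem sizeB {q : ℕ} (hq : 1 ≤ q) :
    q ≤ 2 ^ q.primeFactors.card *
      ((range q).filter (fun a => ∀ p ∈ q.primeFactors, 1 ≤ a % p ∧ a % p ≤ p - p / 2)).card := by
  have h1 := count_res q.primeFactors (fun p hp => Nat.prime_of_mem_primeFactors hp)
    (fun p => Icc 1 (p - p / 2)) (fun p hp => by
      have := (Nat.prime_of_mem_primeFactors hp).two_le
      intro a ha
      rw [mem_Icc] at ha
      rw [mem_range]
      omega) q (Nat.prod_primeFactors_dvd q)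
  simp only [mem_Icc, Nat.card_Icc] at h1
  have hpos : 0 < ∏ p ∈ q.primeFactors, p :=
    prod_pos fun p hp => (Nat.prime_of_mem_primeFactors hp).pos
  have h2 : ∏ p ∈ q.primeFactors, p ≤ ∏ p ∈ q.primeFactors, (2 * (p - p / 2 + 1 - 1)) := by
    refine prod_le_prod' fun p hp => ?_
    have := (Nat.prime_of_mem_primeFactors hp).two_le
    omega
  rw [prod_mul_distrib, prod_const] at h2
  refine Nat.le_of_mul_le_mul_right ?_ hpos
  calc q * ∏ p ∈ q.primeFactors, p
      ≤ q * (2 ^ q.primeFactors.card * ∏ p ∈ q.primeFactors, (p - p / 2 + 1 - 1)) :=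
        Nat.mul_le_mul_left q h2
    _ = 2 ^ q.primeFactors.card * (q * ∏ p ∈ q.primeFactors, (p - p / 2 + 1 - 1)) := by ring
    _ = 2 ^ q.primeFactors.card *
        ((range q).filter
          (fun a => ∀ p ∈ q.primeFactors, 1 ≤ a % p ∧ a % p ≤ p - p / 2)).card *
          ∏ p ∈ q.primeFactors, p := by rw [← h1]; ring

end HZ8
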