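import Pool.Agent.LibHZ8.CNT
import Pool.Agent.LibHZ8.CP1
import Pool.Agent.LibHZ89.Forms

/-!
# Row CP2: values at `x` prime to `q` (MEDIUM, from rows CNT, CP1)

`A`, `B` = the sets of `sizeA`, `sizeB`.  For `a ∈ A`, `b ∈ B` and `p ∣ q` prime: `1 ≤ a % p + b % p ≤ p - 1`, so `p ∤ a + b`;
hence `a + b` is prime to `q` (`Nat.Coprime` from `Nat.Prime` divisors: `Nat.coprime_of_dvd` or
`Nat.Coprime.symm`, `Nat.Prime.dvd_of..`).  `q / 3 ^ ω ≤ #A`, `q / 2 ^ ω ≤ #B` (so `#B ≥ q / 3 ^ ω` too) and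
`8 S L² ≤ 320 S² L²`: the hypotheses of `sumset_count` hold with
`G = {x < q, x prime to q, hur (x / q) ∉ V + Q}` (`HZ7.hur_mod`).  Symmetry: `x ↦ q - x` maps the `x > q / 2` of `G` to the `x < q / 2`
(`hur` is even and has period 1: `hur (1 - y) = hur y`, see LibHZ89; or via `HZ7.SS`: substitute `n ↦ -n`, `n ↦ n + 1` in the sum
over the integers, `Equiv.tsum_eq`), and `2 x = q` with `x` prime to `q` only for `q = 2`, excluded by the size of `q`:
so `#G ≤ 2 * #G'` with `G' = {x : 1 ≤ x, 2 x < q, x prime to q, hur (x / q) ∉ V + Q}`.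
-/

namespace HZ8

open Finset HZ89

private theorem CP2_hur (y : ℝ) : hur (1 - y) = hur y := by
  unfold hur
  rw [← ((Equiv.neg ℤ).trans (Equiv.subRight (1 : ℤ))).tsum_eq
    (fun n : ℤ => 1 / |(n : ℝ) + (1 - y)| ^ 3)]
  refine tsum_congr fun n => ?_
  have h1 : ((((Equiv.neg ℤ).trans (Equiv.subRight (1 : ℤ))) n : ℤ) : ℝ) + (1 - y) =
      -((n : ℝ) + y) := by
    simp only [Equiv.trans_apply, Equiv.neg_apply, Equiv.subRight_apply]
    push_cast
    ring
  rw [h1, abs_neg]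

theorem coprime_count8 {q : ℕ} (hq : 2 ≤ q) (V : Submodule ℚ ℝ) (hV : Module.Finite ℚ V)
    (h : 320 * ((Module.finrank ℚ V : ℝ) + 1) ^ 2 * Real.log q ^ 2 * 3 ^ q.primeFactors.card ≤ q)
    (G : Finset ℕ) (hG : ∀ x : ℕ, 1 ≤ x → 2 * x < q → x.Coprime q →
      hur ((x : ℝ) / q) ∉ V ⊔ Submodule.span ℚ {(1 : ℝ)} → x ∈ G) :
    (q : ℝ) ≤ 36 * ((Module.finrank ℚ V : ℝ) + 1) * Real.log q ^ 2 * 2 ^ q.primeFactors.card *
      G.card := by
  classical
  obtain ⟨S, hS⟩ : ∃ S : ℝ, S = (Module.finrank ℚ V : ℝ) + 1 := ⟨_, rfl⟩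
  obtain ⟨w, hw⟩ : ∃ w : ℕ, w = q.primeFactors.card := ⟨_, rfl⟩
  have hS1 : 1 ≤ S := by
    rw [hS]
    have : (0 : ℝ) ≤ (Module.finrank ℚ V : ℝ) := Nat.cast_nonneg _
    linarith
  rw [← hS, ← hw] at h
  rw [← hS, ← hw]
  have hqpos : (0 : ℝ) < q := by
    have : 0 < q := by omega
    exact_mod_cast this
  set A := (range q).filter (fun a => ∀ p ∈ q.primeFactors, a % p < p / 2) with hAdef
  set B := (range q).filter (fun a => ∀ p ∈ q.primeFactors, 1 ≤ a % p ∧ a % p ≤ p - p / 2)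
    with hBdef
  have hA3 : (q : ℝ) ≤ 3 ^ w * (A.card : ℝ) := by
    have := sizeA (q := q) (by omega)
    rw [← hw] at this
    exact_mod_cast this
  have hB2 : (q : ℝ) ≤ 2 ^ w * (B.card : ℝ) := by
    have := sizeB (q := q) (by omega)
    rw [← hw] at this
    exact_mod_cast this
  have h3 : (0 : ℝ) < 3 ^ w := by positivity
  have h23 : (2 : ℝ) ^ w ≤ 3 ^ w := pow_le_pow_left₀ (by norm_num) (by norm_num) w
  have hL2 : 0 ≤ Real.log q ^ 2 := sq_nonneg _
  have hAc' : 320 * S ^ 2 * Real.log q ^ 2 ≤ (A.card : ℝ) := by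
    have h4 : 320 * S ^ 2 * Real.log q ^ 2 * 3 ^ w ≤ 3 ^ w * (A.card : ℝ) := h.trans hA3
    rw [mul_comm ((3 : ℝ) ^ w)] at h4
    exact le_of_mul_le_mul_right h4 h3
  have hBc' : 320 * S ^ 2 * Real.log q ^ 2 ≤ (B.card : ℝ) := by
    have h4 : (2 : ℝ) ^ w * (B.card : ℝ) ≤ 3 ^ w * (B.card : ℝ) :=
      mul_le_mul_of_nonneg_right h23 (Nat.cast_nonneg _)
    have h5 : 320 * S ^ 2 * Real.log q ^ 2 * 3 ^ w ≤ 3 ^ w * (B.card : ℝ) :=
      h.trans (hB2.trans h4)
    rw [mul_comm ((3 : ℝ) ^ w)] at h5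
    exact le_of_mul_le_mul_right h5 h3
  have hAc : 8 * S * Real.log q ^ 2 ≤ (A.card : ℝ) := by
    refine le_trans ?_ hAc'
    have h4 : 8 * S ≤ 320 * S ^ 2 := by nlinarith
    exact mul_le_mul_of_nonneg_right h4 hL2
  set G2 := (range q).filter (fun x : ℕ => x.Coprime q ∧
    hur ((x : ℝ) / q) ∉ V ⊔ Submodule.span ℚ {(1 : ℝ)}) with hG2def
  have hcop : ∀ a ∈ A, ∀ b ∈ B, (a + b).Coprime q := by
    intro a ha b hb
    rw [hAdef, mem_filter] at ha
    rw [hBdef, mem_filter] at hb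
    by_contra hnc
    obtain ⟨p, hp, hpa, hpq⟩ := Nat.Prime.not_coprime_iff_dvd.1 hnc
    have hpf : p ∈ q.primeFactors := Nat.mem_primeFactors.2 ⟨hp, hpq, by omega⟩
    have h1 := ha.2 p hpf
    have h2 := hb.2 p hpf
    have hp2 := hp.two_le
    have h4 : (a + b) % p = 0 := Nat.mod_eq_zero_of_dvd hpa
    rw [Nat.add_mod, Nat.mod_eq_of_lt (by omega)] at h4
    omega
  have key := sumset_count hq V hV A B G2 (fun a ha => mem_range.1 (mem_filter.1 ha).1)
    (fun b hb => mem_range.1 (mem_filter.1 hb).1) (by rw [← hS]; exact hAc)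
    (by rw [← hS]; exact hBc') (by
      intro a ha b hb hnot
      rw [hG2def, mem_filter, mem_range]
      refine ⟨Nat.mod_lt _ (by omega), ?_, ?_⟩
      · have h1 := hcop a ha b hb
        exact (Nat.gcd_rec q (a + b)).symm.trans ((Nat.gcd_comm _ _).trans h1)
      · rw [HZ7.hur_mod q _ (by omega)]
        exact hnot)
  rw [← hS] at key
  -- symmetry
  have hq2 : q ≠ 2 := by
    intro h2
    have h4 : (0.69 : ℝ) < Real.log q := by
      rw [h2]
      have := Real.log_two_gt_d9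
      push_cast
      linarith
    have h5 : (0.4 : ℝ) ≤ Real.log q ^ 2 := by nlinarith
    have h6 : (1 : ℝ) ≤ S ^ 2 := by nlinarith
    have h7 : (1 : ℝ) ≤ 3 ^ w := one_le_pow₀ (by norm_num)
    have h8 : (0.4 : ℝ) ≤ S ^ 2 * Real.log q ^ 2 := by nlinarith
    have h9 : (0.4 : ℝ) ≤ S ^ 2 * Real.log q ^ 2 * 3 ^ w := by nlinarith
    have h10 : (q : ℝ) = 2 := by rw [h2]; norm_num
    rw [h10] at h h9
    nlinarith
  have hsub : G2 ⊆ G ∪ G.image (fun x => q - x) := by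
    intro x hx
    rw [hG2def, mem_filter, mem_range] at hx
    obtain ⟨hxq, hxc, hxn⟩ := hx
    have hx1 : 1 ≤ x := by
      rcases Nat.eq_zero_or_pos x with h0 | h0
      · rw [h0, Nat.coprime_zero_left] at hxc
        omega
      · exact h0
    rw [mem_union, mem_image]
    rcases lt_trichotomy (2 * x) q with h1 | h1 | h1
    · left
      exact hG x hx1 h1 hxc hxn
    · exfalso
      have h2 : x ∣ q := ⟨2, by omega⟩
      have h3 := Nat.Coprime.eq_one_of_dvd hxc h2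
      omega
    · right
      refine ⟨q - x, ?_, Nat.sub_sub_self hxq.le⟩
      refine hG (q - x) (by omega) (by omega) ?_ ?_
      · exact (Nat.coprime_self_sub_left hxq.le).2 hxc
      · have h2 : ((q - x : ℕ) : ℝ) / q = 1 - (x : ℝ) / q := by
          rw [Nat.cast_sub hxq.le, sub_div, div_self hqpos.ne']
        rw [h2, CP2_hur]
        exact hxn
  have hcard : (G2.card : ℝ) ≤ 2 * G.card := by
    have h1 := card_le_card hsub
    have h2 := card_union_le G (G.image (fun x => q - x))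
    have h4 : (G.image (fun x => q - x)).card ≤ G.card := card_image_le
    have h5 : G2.card ≤ 2 * G.card := by omega
    exact_mod_cast h5
  have hSL : 0 ≤ 18 * S * Real.log q ^ 2 := by positivity
  have h6 : (B.card : ℝ) ≤ 18 * S * Real.log q ^ 2 * (2 * G.card) :=
    key.trans (mul_le_mul_of_nonneg_left hcard hSL)
  calc (q : ℝ) ≤ 2 ^ w * (B.card : ℝ) := hB2
    _ ≤ 2 ^ w * (18 * S * Real.log q ^ 2 * (2 * G.card)) :=
        mul_le_mul_of_nonneg_left h6 (by positivity)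
    _ = 36 * S * Real.log q ^ 2 * 2 ^ w * G.card := by ring

end HZ8
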