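import Mathlib

/-!
# Row CP3: `3 ^ ω(q)` is small (SHORT/MEDIUM, elementary, ONLY MATHLIB)

`3 ^ ω(q) = ∏_{p | q} 3`, and `q ^ ε ≥ ∏_{p | q} p ^ ε`; for `p ≥ B = ⌈3 ^ (1 / ε)⌉₊` the factor `3 ≤ p ^ ε`; for the primes `p < B`
use `3 ≤ 3 * p ^ ε`: so `3 ^ ω(q) ≤ 3 ^ B * q ^ ε`.
-/

namespace HZ8

open Finset

theorem three_omega {ε : ℝ} (hε : 0 < ε) : ∃ C : ℝ, 1 ≤ C ∧ ∀ q : ℕ, 1 ≤ q →
    (3 : ℝ) ^ q.primeFactors.card ≤ C * (q : ℝ) ^ ε := by
  set B : ℕ := ⌈(3 : ℝ) ^ (1 / ε)⌉₊ with hB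
  refine ⟨3 ^ B, one_le_pow₀ (by norm_num), ?_⟩
  intro q hq
  have h1 : (3 : ℝ) ^ q.primeFactors.card = ∏ _p ∈ q.primeFactors, (3 : ℝ) := by
    rw [Finset.prod_const]
  have h2 : ∏ _p ∈ q.primeFactors, (3 : ℝ)
      ≤ ∏ p ∈ q.primeFactors, ((if p < B then (3 : ℝ) else 1) * (p : ℝ) ^ ε) := by
    apply Finset.prod_le_prod
    · intro p _
      norm_num
    · intro p hp
      have hp2 : Nat.Prime p := Nat.prime_of_mem_primeFactors hp
      have hp1 : (1 : ℝ) ≤ (p : ℝ) := by exact_mod_cast hp2.one_lt.le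
      by_cases h : p < B
      · rw [if_pos h]
        have : (1 : ℝ) ≤ (p : ℝ) ^ ε := Real.one_le_rpow hp1 hε.le
        linarith
      · rw [if_neg h, one_mul]
        have h3 : (3 : ℝ) ^ (1 / ε) ≤ (p : ℝ) := by
          have h4 : B ≤ p := Nat.le_of_not_lt h
          exact (Nat.le_ceil _).trans (by exact_mod_cast h4)
        calc (3 : ℝ) = ((3 : ℝ) ^ (1 / ε)) ^ ε := by
              rw [← Real.rpow_mul (by norm_num), one_div, inv_mul_cancel₀ hε.ne', Real.rpow_one]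
          _ ≤ (p : ℝ) ^ ε := Real.rpow_le_rpow (by positivity) h3 hε.le
  have h3 : ∏ p ∈ q.primeFactors, (if p < B then (3 : ℝ) else 1) ≤ 3 ^ B := by
    rw [Finset.prod_ite, Finset.prod_const, Finset.prod_const_one, mul_one]
    apply pow_le_pow_right₀ (by norm_num)
    calc (q.primeFactors.filter (fun p => p < B)).card ≤ (Finset.range B).card := by
          apply Finset.card_le_card
          intro p hp
          rw [Finset.mem_filter] at hp
          exact Finset.mem_range.2 hp.2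
      _ = B := Finset.card_range B
  have h4 : ∏ p ∈ q.primeFactors, (p : ℝ) ^ ε ≤ (q : ℝ) ^ ε := by
    rw [Real.finsetProd_rpow _ _ (fun p _ => Nat.cast_nonneg p)]
    apply Real.rpow_le_rpow
    · exact Finset.prod_nonneg (fun p _ => Nat.cast_nonneg p)
    · have h5 : ∏ p ∈ q.primeFactors, p ≤ q := Nat.le_of_dvd hq (Nat.prod_primeFactors_dvd q)
      calc ∏ p ∈ q.primeFactors, (p : ℝ) = ((∏ p ∈ q.primeFactors, p : ℕ) : ℝ) := by
            rw [Nat.cast_prod]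
        _ ≤ (q : ℝ) := Nat.cast_le.2 h5
    · exact hε.le
  rw [h1]
  refine h2.trans ?_
  rw [Finset.prod_mul_distrib]
  exact mul_le_mul h3 h4 (Finset.prod_nonneg (fun p _ => by positivity)) (by positivity)

end HZ8
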