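import Pool.Agent.LibHZ8.B1
import Pool.Agent.LibHZ8.C4
import Pool.Agent.LibHZ7.D1
import Pool.Agent.LibHZ7.C3

/-!
# Row D3: the rows (iv) are small modulo the others (MEDIUM, template LibHZ7/D3.lean)
-/

namespace HZ8

open Finset HZ89 Polynomial

theorem rows_small {q r n s d K k : ℕ} {Cs I : Finset ℕ} (hq : 1 ≤ q) (hr : 1 ≤ r) (hn : 1 ≤ n)
    (hC : ∀ c ∈ Cs, c < q) (hI : ∀ x ∈ I, x < q) (hK : k + 3 * Tw r n ≤ K) (hKd : K < d)
    (ξ : Fin s → ℝ) (b₀ : ℕ → ℚ) (b : ℕ → Fin s → ℚ)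
    (hS : ∀ x ∈ I, ∀ c ∈ Cs, HZ7.SS q ((x : ℝ) + c) =
      (b₀ ((x + c) % q) : ℝ) + ∑ i, (b ((x + c) % q) i : ℝ) * ξ i) (p : HZ7.RB Cs k) :
    ∃ v' : P q n I → ℝ, (v' - fun j : P q n I => rowB q r n Cs k b₀ p j) ∈
        HZ7.rsp q n s Cs d K b I ∧
      ∀ j : P q n I, |v' j| ≤ 12 * (((d - K : ℕ) : ℝ) + 2) ^ 2 *
        (1 / (2 * (r : ℝ) + 1)) ^ (d - K) *
        (|(WP q r n p.1).eval ((j : ℕ) : ℝ)| * ((j : ℕ).choose p.2 : ℝ)) := by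
  obtain ⟨c, l⟩ := p
  obtain ⟨pk, hpk, hpk'⟩ := HZ7.choose_poly (l : ℕ)
  have hl := l.2
  have hD : 1 ≤ d - K := by omega
  obtain ⟨G, hG, hG'⟩ := tail_poly (c := (c : ℕ)) hq hr hn (hC c c.2) hD
  have hw : (WP q r n c * pk).natDegree < K := by
    have h1 : (WP q r n c * pk).natDegree ≤ (WP q r n c).natDegree + pk.natDegree :=
      natDegree_mul_le
    have h2 := W_natDegree q r n (c : ℕ)
    omega
  have hGw : (G * (WP q r n c * pk)).natDegree < d := by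
    have h1 : (G * (WP q r n c * pk)).natDegree ≤ G.natDegree + (WP q r n c * pk).natDegree :=
      natDegree_mul_le
    omega
  have hwe : ∀ j : ℕ, (WP q r n c * pk).eval (j : ℝ) =
      (WP q r n c).eval (j : ℝ) * (j.choose l : ℝ) := by
    intro j
    rw [eval_mul, hpk']
  refine ⟨fun j => (HZ7.SS q (((j : ℕ) : ℝ) + (c : ℕ)) - ps q r n (((j : ℕ) : ℝ) + (c : ℕ)) -
    G.eval ((j : ℕ) : ℝ)) * (WP q r n c * pk).eval ((j : ℕ) : ℝ), ?_, ?_⟩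
  · have h1 : ((fun j : P q n I => (HZ7.SS q (((j : ℕ) : ℝ) + (c : ℕ)) -
        ps q r n (((j : ℕ) : ℝ) + (c : ℕ)) - G.eval ((j : ℕ) : ℝ)) *
          (WP q r n c * pk).eval ((j : ℕ) : ℝ)) -
        fun j : P q n I => rowB q r n Cs k b₀ (c, l) j) =
        (∑ i, ξ i • fun j : P q n I => (b (((j : ℕ) + (c : ℕ)) % q) i : ℝ) *
          (WP q r n c * pk).eval ((j : ℕ) : ℝ)) -
        fun j : P q n I => (G * (WP q r n c * pk)).eval ((j : ℕ) : ℝ) := by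
      funext j
      obtain ⟨-, hj2⟩ : (j : ℕ) ∈ range (q * n) ∧ (j : ℕ) % q ∈ I := mem_filter.1 j.2
      have h2 : HZ7.SS q (((j : ℕ) : ℝ) + (c : ℕ)) = HZ7.SS q ((((j : ℕ) % q : ℕ) : ℝ) + (c : ℕ)) := by
        rw [← HZ7.SS_per (q := q) ((((j : ℕ) % q : ℕ) : ℝ) + (c : ℕ)) ((j : ℕ) / q)]
        congr 1
        have h3 : ((j : ℕ) : ℝ) = (((j : ℕ) % q : ℕ) : ℝ) + q * (((j : ℕ) / q : ℕ) : ℝ) := by
          exact_mod_cast (Nat.mod_add_div (j : ℕ) q).symm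
        linear_combination h3
      have h3 := hS _ hj2 c c.2
      rw [Nat.mod_add_mod] at h3
      simp only [Pi.sub_apply, Finset.sum_apply, Pi.smul_apply, smul_eq_mul]
      rw [h2, h3, eval_mul (p := G), hwe]
      simp only [rowB]
      rw [← sub_eq_zero]
      have h4 : ∑ i, ξ i * ((b (((j : ℕ) + (c : ℕ)) % q) i : ℝ) *
          ((WP q r n c).eval ((j : ℕ) : ℝ) * ((j : ℕ).choose l : ℝ))) =
          (∑ i, (b (((j : ℕ) + (c : ℕ)) % q) i : ℝ) * ξ i) *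
          ((WP q r n c).eval ((j : ℕ) : ℝ) * ((j : ℕ).choose l : ℝ)) := by
        rw [sum_mul]
        exact sum_congr rfl fun i _ => by ring
      rw [h4]
      ring
    rw [h1]
    exact Submodule.sub_mem _ (Submodule.sum_mem _ fun i _ => Submodule.smul_mem _ _
      (HZ7.span_iii hw i c.2)) (HZ7.span_i hGw)
  · intro j
    obtain ⟨hj1, -⟩ : (j : ℕ) ∈ range (q * n) ∧ (j : ℕ) % q ∈ I := mem_filter.1 j.2
    show |(HZ7.SS q (((j : ℕ) : ℝ) + (c : ℕ)) - ps q r n (((j : ℕ) : ℝ) + (c : ℕ)) -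
      G.eval ((j : ℕ) : ℝ)) * (WP q r n c * pk).eval ((j : ℕ) : ℝ)| ≤
        12 * (((d - K : ℕ) : ℝ) + 2) ^ 2 * (1 / (2 * (r : ℝ) + 1)) ^ (d - K) *
        (|(WP q r n c).eval ((j : ℕ) : ℝ)| * ((j : ℕ).choose l : ℝ))
    rw [hwe, abs_mul, abs_mul, Nat.abs_cast]
    exact mul_le_mul_of_nonneg_right (hG' j (mem_range.1 hj1)) (by positivity)

end HZ8
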