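import Pool.Agent.LibHZ7.Core
import Pool.Agent.LibHZ8.A2
import Pool.Agent.LibHZ8.D3
import Pool.Agent.LibHZ8.E5

/-!
# The contradiction for long windows (assembly, helper89)
-/

namespace HZ8

open Finset HZ89 Polynomial

/-- the bound for the multiplier -/
noncomputable def Wm (q T : ℕ) : ℝ :=
  ((q : ℝ) ^ (2 * T) * 2 ^ (8 * T) * Real.exp T) ^ 3

theorem Wm_pos {q T : ℕ} (hq : 1 ≤ q) : 0 < Wm q T := by
  have hqr : (0 : ℝ) < q := by exact_mod_cast hq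
  unfold Wm
  positivity

/-- the sizes of the rows (iv) -/
noncomputable def EE (q r n : ℕ) (Cs : Finset ℕ) (k N : ℕ) (p : HZ7.RB Cs k) : ℝ :=
  12 * ((N : ℝ) + 2) ^ 2 * (1 / (2 * (r : ℝ) + 1)) ^ N *
    (Wm q (Tw r n) * (Real.exp n * (q : ℝ) ^ (p.2 : ℕ)))

theorem det8 {q r n s d K k : ℕ} {I Cs : Finset ℕ} (hq : 1 ≤ q) (hr : 1 ≤ r) (hn : 1 ≤ n)
    (hC : ∀ c ∈ Cs, c < q) (hI : ∀ x ∈ I, x < q) (hk : 1 ≤ k) (hK : k + 3 * Tw r n ≤ K)
    (hKd : K < d)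
    (hdeg : 6 * Cs.card * (Cs.card * (s + 1) + 1) + d + (Cs.card * (s + 1)) * K +
      I.card * (Cs.card * (s + 1)) < I.card * n)
    (ξ : Fin s → ℝ) (b₀ : ℕ → ℚ) (b : ℕ → Fin s → ℚ)
    (hS : ∀ x ∈ I, ∀ c ∈ Cs, HZ7.SS q ((x : ℝ) + c) =
      (b₀ ((x + c) % q) : ℝ) + ∑ i, (b ((x + c) % q) i : ℝ) * ξ i)
    {D₀ : ℕ} (hD₀ : 1 ≤ D₀) {B : ℝ} (hB : 1 ≤ B)
    (h0 : ∀ y < q, ∃ z : ℤ, (D₀ : ℝ) * (b₀ y : ℝ) = z)
    (h1 : ∀ y < q, ∀ i, ∃ z : ℤ, (D₀ : ℝ) * (b y i : ℝ) = z)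
    (h2 : ∀ y < q, ∀ i, |(b y i : ℝ)| ≤ B) :
    1 ≤ ((D₀ : ℝ) * (1 : ℕ)) ^ (Fintype.card (HZ7.RA s Cs d K) + Fintype.card (HZ7.RB Cs k)) *
      (Fintype.card (HZ7.RA s Cs d K) + Fintype.card (HZ7.RB Cs k)).factorial *
      (∏ a, HZ7.UU q n s Cs d K B a) * ∏ p, EE q r n Cs k (d - K) p := by
  classical
  have hqr : (1 : ℝ) ≤ q := by exact_mod_cast hq
  have hmod : ∀ j c : ℕ, (j + c) % q < q := fun j c => Nat.mod_lt _ (by omega)
  choose v' hv'1 hv'2 using fun p : HZ7.RB Cs k =>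
    rows_small (d := d) (K := K) hq hr hn hC hI hK hKd ξ b₀ b hS p
  have hint : ∀ x y : ℝ, (∃ z : ℤ, x = z) → (∃ z : ℤ, y = z) → ∃ z : ℤ, x * y = z := by
    rintro x y ⟨z, rfl⟩ ⟨z', rfl⟩
    exact ⟨z * z', by push_cast; ring⟩
  have hintn : ∀ m : ℕ, ∃ z : ℤ, (m : ℝ) = z := fun m => ⟨m, by simp⟩
  refine HZ3.det_ineq (J := P q n I) (α := HZ7.RA s Cs d K) (β := HZ7.RB Cs k)
    (u := fun r j => HZ7.rowA q s Cs d K b r j) (v := fun p j => rowB q r n Cs k b₀ p j) (v' := v')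
    (w := fun _ => 1) (D₀ := D₀) (W := 1) (U := HZ7.UU q n s Cs d K B)
    (ε := EE q r n Cs k (d - K)) ?_ ?_ ?_ ?_ hD₀ le_rfl (fun _ => le_rfl) (fun _ => le_rfl) ?_ ?_ ?_
  · intro c hc
    exact rows_ind hq hr hn hC hI hk hK hKd hdeg b₀ b c hc
  · intro p
    exact hv'1 p
  · rintro (k | ⟨i, c, k⟩) j
    · simp only [HZ7.rowA, Nat.cast_one, mul_one]
      exact hint _ _ (hintn _) (hintn _)
    · simp only [HZ7.rowA, Nat.cast_one, mul_one]
      rw [← mul_assoc]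
      exact hint _ _ (h1 _ (hmod _ _) i) (hintn _)
  · rintro ⟨c, k⟩ j
    simp only [rowB, Nat.cast_one, mul_one]
    have e1 : (D₀ : ℝ) * (((b₀ (((j : ℕ) + c) % q) : ℝ) - ps q r n (((j : ℕ) : ℝ) + (c : ℕ))) *
        ((WP q r n c).eval ((j : ℕ) : ℝ) * ((j : ℕ).choose k : ℝ))) =
        ((D₀ : ℝ) * (b₀ (((j : ℕ) + c) % q) : ℝ)) * (WP q r n c).eval ((j : ℕ) : ℝ) *
          ((j : ℕ).choose k : ℝ) -
        (D₀ : ℝ) * ((WP q r n c).eval ((j : ℕ) : ℝ) * ps q r n (((j : ℕ) : ℝ) + (c : ℕ))) *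
          ((j : ℕ).choose k : ℝ) := by ring
    rw [e1]
    obtain ⟨z1, hz1⟩ := hint _ _ (hint _ _ (h0 _ (hmod j c)) (W_int q r n c j))
      (hintn ((j : ℕ).choose k))
    obtain ⟨z2, hz2⟩ := hint _ _ (hint _ _ (hintn D₀) (Wps_int q r n c j))
      (hintn ((j : ℕ).choose k))
    exact ⟨z1 - z2, by rw [hz1, hz2]; push_cast; ring⟩
  · rintro (k | ⟨i, c, k⟩) j
    · have hj : (j : ℕ) < q * n := mem_range.1 (mem_filter.1 j.2).1
      simp only [HZ7.rowA, HZ7.UU]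
      rw [abs_of_nonneg (Nat.cast_nonneg _)]
      exact HZ7.ch_le hj
    · have hj : (j : ℕ) < q * n := mem_range.1 (mem_filter.1 j.2).1
      simp only [HZ7.rowA, HZ7.UU]
      rw [abs_mul, Nat.abs_cast]
      exact mul_le_mul (h2 _ (hmod _ _) i) (HZ7.ch_le hj) (Nat.cast_nonneg _) (by linarith)
  · have he : (1 : ℝ) ≤ Real.exp n := Real.one_le_exp (Nat.cast_nonneg n)
    have hq1 : ∀ m : ℕ, (1 : ℝ) ≤ (q : ℝ) ^ m := fun m => one_le_pow₀ hqr
    rintro (k | ⟨i, c, k⟩)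
    · simp only [HZ7.UU]
      exact one_le_mul_of_one_le_of_one_le he (hq1 _)
    · simp only [HZ7.UU]
      exact one_le_mul_of_one_le_of_one_le hB (one_le_mul_of_one_le_of_one_le he (hq1 _))
  · rintro ⟨c, k⟩ j
    have hj : (j : ℕ) < q * n := mem_range.1 (mem_filter.1 j.2).1
    refine (hv'2 (c, k) j).trans ?_
    simp only [EE]
    refine mul_le_mul_of_nonneg_left ?_ (by positivity)
    exact mul_le_mul (W_le hq (hC c c.2) hj) (HZ7.ch_le hj) (Nat.cast_nonneg _) (Wm_pos hq).le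

theorem log_Wm (q T : ℕ) (hq : 1 ≤ q) : Real.log (Wm q T) =
    3 * T * (2 * Real.log q + 1 + 8 * Real.log 2) := by
  have hqr : (0 : ℝ) < q := by exact_mod_cast hq
  unfold Wm
  rw [Real.log_pow, Real.log_mul (by positivity) (by positivity),
    Real.log_mul (by positivity) (by positivity), Real.log_pow, Real.log_pow, Real.log_exp]
  push_cast
  ring

/-- the inequality for one `n` -/
theorem ineq8 {q r n s δ M k K : ℕ} {Cs : Finset ℕ} (hq : 1 ≤ q) (hr : 1 ≤ r) (hn : 1 ≤ n)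
    (hM : Cs.card = M) (hM1 : 1 ≤ M) (hδ : K < δ) {D₀ : ℕ} (hD₀ : 1 ≤ D₀) {B : ℝ} (hB : 1 ≤ B)
    (h : 1 ≤ ((D₀ : ℝ) * (1 : ℕ)) ^ (Fintype.card (HZ7.RA s Cs (δ * n) (K * n)) +
        Fintype.card (HZ7.RB Cs (k * n))) *
      (Fintype.card (HZ7.RA s Cs (δ * n) (K * n)) + Fintype.card (HZ7.RB Cs (k * n))).factorial *
      (∏ a, HZ7.UU q n s Cs (δ * n) (K * n) B a) *
      ∏ p, EE q r n Cs (k * n) (δ * n - K * n) p) :
    (M * (k * (δ - K) * Real.log (2 * r + 1)) -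
      ((δ : ℝ) + (δ : ℝ) ^ 2 * Real.log q / 2 + s * M * (K + (K : ℝ) ^ 2 * Real.log q / 2) +
      M * (k + (k : ℝ) ^ 2 * Real.log q / 2 +
        k * (3 * (2 * r + 1) * (2 * Real.log q + 1 + 8 * Real.log 2))))) * (n : ℝ) ^ 2 ≤
      ((δ + K * s * M + k * M) * Real.log D₀ + K * s * M * Real.log B +
        3 * k * M * (2 * Real.log q + 1 + 8 * Real.log 2)) * n +
      (δ + K * s * M + k * M) * n * Real.log ((δ + K * s * M + k * M) * n) +
      k * M * n * Real.log (200 * ((δ : ℝ) * n + 2) ^ 2) := by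
  have hqr : (1 : ℝ) ≤ q := by exact_mod_cast hq
  have hq0 : (0 : ℝ) < q := by linarith
  have hnr : (1 : ℝ) ≤ n := by exact_mod_cast hn
  have hrr : (1 : ℝ) ≤ r := by exact_mod_cast hr
  have hMr : (1 : ℝ) ≤ M := by exact_mod_cast hM1
  have hδr : (K : ℝ) < δ := by exact_mod_cast hδ
  have hK0 : (0 : ℝ) ≤ K := Nat.cast_nonneg K
  have hL : 0 ≤ Real.log q := Real.log_nonneg hqr
  have hW := Wm_pos (q := q) (T := Tw r n) hq
  have hD0r : (1 : ℝ) ≤ D₀ := by exact_mod_cast hD₀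
  set R : ℕ := δ * n + K * s * M * n + k * M * n with hR
  have hcard : Fintype.card (HZ7.RA s Cs (δ * n) (K * n)) + Fintype.card (HZ7.RB Cs (k * n)) =
      R := by
    simp only [HZ7.RA, HZ7.RB, Fintype.card_sum, Fintype.card_prod, Fintype.card_fin,
      Fintype.card_coe, hM, hR]
    ring
  rw [hcard, Nat.cast_one, mul_one] at h
  have hR1 : 1 ≤ R := by
    have : 1 ≤ δ * n := Nat.one_le_iff_ne_zero.2 (mul_ne_zero (by omega) (by omega))
    omega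
  have hRr : (R : ℝ) = (δ + K * s * M + k * M) * n := by
    rw [hR]
    push_cast
    ring
  have hUpos : ∀ a, 0 < HZ7.UU q n s Cs (δ * n) (K * n) B a := by
    rintro (k | ⟨i, c, k⟩)
    · simp only [HZ7.UU]; positivity
    · simp only [HZ7.UU]; positivity
  have hEpos : ∀ p, 0 < EE q r n Cs (k * n) (δ * n - K * n) p := by
    rintro ⟨c, k⟩
    simp only [EE]; positivity
  have hlog := Real.log_nonneg h
  have hf0 : (0 : ℝ) < (R.factorial : ℝ) := by exact_mod_cast Nat.factorial_pos R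
  have hDp : (0 : ℝ) < (D₀ : ℝ) ^ R := by positivity
  have hPU : 0 < ∏ a, HZ7.UU q n s Cs (δ * n) (K * n) B a := prod_pos fun a _ => hUpos a
  have hPE : 0 < ∏ p, EE q r n Cs (k * n) (δ * n - K * n) p := prod_pos fun a _ => hEpos a
  rw [Real.log_mul (by positivity) hPE.ne', Real.log_mul (by positivity) hPU.ne',
    Real.log_mul hDp.ne' hf0.ne', Real.log_pow, Real.log_prod (fun a _ => (hUpos a).ne'),
    Real.log_prod (fun a _ => (hEpos a).ne')] at hlog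
  -- factorial
  have hfac : Real.log (R.factorial : ℝ) ≤ R * Real.log R := by
    have h1 : (R.factorial : ℝ) ≤ (R : ℝ) ^ R := by exact_mod_cast Nat.factorial_le_pow R
    rw [← Real.log_pow]
    exact Real.log_le_log hf0 h1
  -- rows (i), (iii)
  have hUsum : ∑ a, Real.log (HZ7.UU q n s Cs (δ * n) (K * n) B a) ≤
      ((δ : ℝ) * n) * n + ((δ : ℝ) * n) ^ 2 / 2 * Real.log q +
      s * M * ((K * (n : ℝ)) * (Real.log B + n) + (K * (n : ℝ)) ^ 2 / 2 * Real.log q) := by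
    rw [Fintype.sum_sum_type, Fintype.sum_prod_type]
    have e1 : ∀ k : Fin (δ * n), Real.log (HZ7.UU q n s Cs (δ * n) (K * n) B (Sum.inl k)) =
        (n : ℝ) + ((k : ℕ) : ℝ) * Real.log q := by
      intro k
      simp only [HZ7.UU]
      rw [Real.log_mul (by positivity) (by positivity), Real.log_exp, Real.log_pow]
    have e2 : ∀ (i : Fin s) (x : Cs × Fin (K * n)),
        Real.log (HZ7.UU q n s Cs (δ * n) (K * n) B (Sum.inr (i, x))) =
        (Real.log B + n) + ((x.2 : ℕ) : ℝ) * Real.log q := by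
      rintro i ⟨c, k⟩
      simp only [HZ7.UU]
      rw [Real.log_mul (by positivity) (by positivity), Real.log_mul (by positivity) (by positivity),
        Real.log_exp, Real.log_pow]
      ring
    simp only [e1, e2]
    have g1 := HZ7.core_sum_lin (δ * n) (n : ℝ) (Real.log q) hL
    have g2 := HZ7.core_sum_lin (K * n) (Real.log B + n) (Real.log q) hL
    have g3 : ∑ _i : Fin s, ∑ x : Cs × Fin (K * n), ((Real.log B + n) + ((x.2 : ℕ) : ℝ) * Real.log q)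
        = s * M * ∑ k : Fin (K * n), ((Real.log B + n) + ((k : ℕ) : ℝ) * Real.log q) := by
      rw [sum_const, card_univ, Fintype.card_fin, nsmul_eq_mul, Fintype.sum_prod_type]
      simp only [sum_const, card_univ, Fintype.card_coe, hM, nsmul_eq_mul]
      ring
    rw [g3]
    push_cast at g1 g2
    have hsM : (0 : ℝ) ≤ (s : ℝ) * M := by positivity
    have g4 := mul_le_mul_of_nonneg_left g2 hsM
    linarith
  -- rows (iv)
  have hEsum : ∑ p, Real.log (EE q r n Cs (k * n) (δ * n - K * n) p) ≤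
      M * ((k * (n : ℝ)) * (Real.log (200 * ((δ : ℝ) * n + 2) ^ 2) -
        ((δ : ℝ) - K) * n * Real.log (2 * r + 1) +
        (3 * ((2 * r + 1) * n + 1)) * (2 * Real.log q + 1 + 8 * Real.log 2) + n) +
        (k * (n : ℝ)) ^ 2 / 2 * Real.log q) := by
    have hN : ((δ * n - K * n : ℕ) : ℝ) = ((δ : ℝ) - K) * n := by
      rw [Nat.cast_sub (Nat.mul_le_mul_right n hδ.le)]
      push_cast
      ring
    have e1 : ∀ p : Cs × Fin (k * n), Real.log (EE q r n Cs (k * n) (δ * n - K * n) p) =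
        (Real.log (12 * (((δ : ℝ) - K) * n + 2) ^ 2) - ((δ : ℝ) - K) * n * Real.log (2 * r + 1) +
          (3 * ((2 * r + 1) * n + 1)) * (2 * Real.log q + 1 + 8 * Real.log 2) + n) +
          ((p.2 : ℕ) : ℝ) * Real.log q := by
      rintro ⟨c, k⟩
      simp only [EE]
      have h12 : (0 : ℝ) < 12 * (((δ * n - K * n : ℕ) : ℝ) + 2) ^ 2 := by positivity
      have h13 : (12 : ℝ) * (((δ * n - K * n : ℕ) : ℝ) + 2) ^ 2 =
        12 * (((δ : ℝ) - K) * n + 2) ^ 2 := by rw [hN]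
      rw [← h13]
      generalize (12 : ℝ) * (((δ * n - K * n : ℕ) : ℝ) + 2) ^ 2 = X at h12
      rw [Real.log_mul (mul_pos h12 (by positivity)).ne' (by positivity),
        Real.log_mul h12.ne' (by positivity),
        Real.log_mul hW.ne' (by positivity), Real.log_mul (by positivity) (by positivity),
        Real.log_exp, Real.log_pow, Real.log_pow, log_Wm q (Tw r n) hq, one_div, Real.log_inv, hN,
        Tw]
      push_cast
      ring
    simp only [e1]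
    have g3 : ∑ x : Cs × Fin (k * n), ((Real.log (12 * (((δ : ℝ) - K) * n + 2) ^ 2) -
          ((δ : ℝ) - K) * n * Real.log (2 * r + 1) +
          (3 * ((2 * r + 1) * n + 1)) * (2 * Real.log q + 1 + 8 * Real.log 2) + n) +
          ((x.2 : ℕ) : ℝ) * Real.log q) =
        M * ∑ k : Fin (k * n), ((Real.log (12 * (((δ : ℝ) - K) * n + 2) ^ 2) -
          ((δ : ℝ) - K) * n * Real.log (2 * r + 1) +
          (3 * ((2 * r + 1) * n + 1)) * (2 * Real.log q + 1 + 8 * Real.log 2) + n) +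
          ((k : ℕ) : ℝ) * Real.log q) := by
      rw [Fintype.sum_prod_type]
      simp only [sum_const, card_univ, Fintype.card_coe, hM, nsmul_eq_mul]
    rw [g3]
    refine mul_le_mul_of_nonneg_left ?_ (by positivity)
    refine (HZ7.core_sum_lin (k * n) _ (Real.log q) hL).trans ?_
    push_cast
    have h200 : Real.log (12 * (((δ : ℝ) - K) * n + 2) ^ 2) ≤
        Real.log (200 * ((δ : ℝ) * n + 2) ^ 2) := by
      have h0 : 0 < ((δ : ℝ) - K) * n + 2 := by nlinarith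
      refine Real.log_le_log (by positivity) ?_
      have h1 : ((δ : ℝ) - K) * n + 2 ≤ (δ : ℝ) * n + 2 := by nlinarith
      have h2 := pow_le_pow_left₀ h0.le h1 2
      nlinarith
    have hn10 : (0 : ℝ) ≤ k * n := by positivity
    nlinarith [mul_le_mul_of_nonneg_left h200 hn10]
  have hRlog : (R : ℝ) * Real.log R = (δ + K * s * M + k * M) * n *
      Real.log ((δ + K * s * M + k * M) * n) := by rw [hRr]
  rw [hRlog] at hfac
  rw [hRr] at hlog
  nlinarith [hlog, hfac, hUsum, hEsum]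

theorem core8 {q s r δ k K : ℕ} {I Cs : Finset ℕ} (hq : 1 ≤ q) (hCs : Cs.Nonempty)
    (hC : ∀ c ∈ Cs, c < q) (hI : ∀ x ∈ I, x < q) (hA : Adm q s r I.card Cs.card δ k K)
    (ξ : Fin s → ℝ) (b₀ : ℕ → ℚ) (b : ℕ → Fin s → ℚ)
    (hS : ∀ x ∈ I, ∀ c ∈ Cs, HZ7.SS q ((x : ℝ) + c) =
      (b₀ ((x + c) % q) : ℝ) + ∑ i, (b ((x + c) % q) i : ℝ) * ξ i) : False := by
  classical
  obtain ⟨hk, hr, hK, hδ, hm, hΦ⟩ := hA
  obtain ⟨M, hM⟩ : ∃ M, Cs.card = M := ⟨_, rfl⟩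
  have hM1 : 1 ≤ M := by
    rw [← hM]
    exact hCs.card_pos
  -- the denominators
  obtain ⟨D₁, hD₁, hD₁'⟩ := exists_den (range q) b₀
  obtain ⟨D₂, hD₂, hD₂'⟩ := exists_den (range q ×ˢ (univ : Finset (Fin s))) (fun p => b p.1 p.2)
  obtain ⟨B, hB1, hB⟩ : ∃ B : ℝ, 1 ≤ B ∧ ∀ y < q, ∀ i, |(b y i : ℝ)| ≤ B := by
    refine ⟨1 + ∑ y ∈ range q, ∑ i, |(b y i : ℝ)|, ?_, fun y hy i => ?_⟩
    · have : 0 ≤ ∑ y ∈ range q, ∑ i, |(b y i : ℝ)| :=
        sum_nonneg fun _ _ => sum_nonneg fun _ _ => abs_nonneg _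
      linarith
    · have h1 : |(b y i : ℝ)| ≤ ∑ i, |(b y i : ℝ)| :=
        single_le_sum (f := fun i => |(b y i : ℝ)|) (fun _ _ => abs_nonneg _) (mem_univ i)
      have h2 : ∑ i, |(b y i : ℝ)| ≤ ∑ y ∈ range q, ∑ i, |(b y i : ℝ)| :=
        single_le_sum (f := fun y => ∑ i, |(b y i : ℝ)|)
          (fun _ _ => sum_nonneg fun _ _ => abs_nonneg _) (mem_range.2 hy)
      linarith
  have hDD : 1 ≤ D₁ * D₂ := Nat.one_le_iff_ne_zero.2 (mul_ne_zero (by omega) (by omega))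
  have h0 : ∀ y < q, ∃ z : ℤ, ((D₁ * D₂ : ℕ) : ℝ) * (b₀ y : ℝ) = z := by
    intro y hy
    obtain ⟨m, hm⟩ := hD₁' y (mem_range.2 hy)
    refine ⟨D₂ * m, ?_⟩
    have h1 := congrArg (fun x : ℚ => (x : ℝ)) hm
    push_cast at h1 ⊢
    rw [← h1]
    ring
  have h1 : ∀ y < q, ∀ i, ∃ z : ℤ, ((D₁ * D₂ : ℕ) : ℝ) * (b y i : ℝ) = z := by
    intro y hy i
    obtain ⟨m, hm⟩ := hD₂' (y, i) (mem_product.2 ⟨mem_range.2 hy, mem_univ i⟩)
    refine ⟨D₁ * m, ?_⟩
    have h1 := congrArg (fun x : ℚ => (x : ℝ)) hm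
    push_cast at h1 ⊢
    rw [← h1]
    ring
  rw [hM] at hm hΦ
  have hδr : (K : ℝ) < δ := by exact_mod_cast hδ
  have hkr : (1 : ℝ) ≤ k := by exact_mod_cast hk
  have hK0 : (0 : ℝ) ≤ K := Nat.cast_nonneg K
  have hMr : (1 : ℝ) ≤ M := by exact_mod_cast hM1
  have hL : 0 ≤ Real.log q := Real.log_nonneg (by exact_mod_cast hq)
  refine HZ3.lim_contra (E := M * (k * (δ - K) * Real.log (2 * r + 1)) -
      ((δ : ℝ) + (δ : ℝ) ^ 2 * Real.log q / 2 + s * M * (K + (K : ℝ) ^ 2 * Real.log q / 2) +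
      M * (k + (k : ℝ) ^ 2 * Real.log q / 2 +
        k * (3 * (2 * r + 1) * (2 * Real.log q + 1 + 8 * Real.log 2)))))
    (a := (δ + K * s * M + k * M) * Real.log ((D₁ * D₂ : ℕ) : ℝ) + K * s * M * Real.log B +
        3 * k * M * (2 * Real.log q + 1 + 8 * Real.log 2))
    (R₁ := δ + K * s * M + k * M) (c := k * M) (δ := δ) (by linarith) ?_
    ?_ (6 * M * (M * (s + 1) + 1) + I.card * (M * (s + 1)) + 4) (fun n hn => ?_)
  · have : (0 : ℝ) < δ := by linarith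
    positivity
  · linarith
  have hn3 : 3 ≤ n := by omega
  have hdet := det8 (n := n) (d := δ * n) (K := K * n) (k := k * n) hq hr (by omega) hC hI
    (Nat.one_le_iff_ne_zero.2 (mul_ne_zero (by omega) (by omega)))
    (by
      have h2 : (k + 3 * (2 * r + 1) + 1) * n ≤ K * n := Nat.mul_le_mul_right n hK
      have h3 : (k + 3 * (2 * r + 1) + 1) * n = k * n + 3 * ((2 * r + 1) * n) + n := by ring
      unfold Tw
      omega) (Nat.mul_lt_mul_of_pos_right hδ (by omega)) (by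
      rw [hM]
      have h2 : (δ + K * (M * (s + 1)) + 1) * n ≤ I.card * n := Nat.mul_le_mul_right n hm
      have h3 : (δ + K * (M * (s + 1)) + 1) * n = δ * n + M * (s + 1) * (K * n) + n := by ring
      omega) ξ b₀ b hS hDD hB1 h0 h1 hB
  have := ineq8 hq hr (by omega) hM hM1 hδ hDD hB1 hdet
  exact this

theorem core8_V {q s r δ k K : ℕ} {I Cs : Finset ℕ} (hq : 1 ≤ q) (hCs : Cs.Nonempty)
    (hC : ∀ c ∈ Cs, c < q) (hI : ∀ x ∈ I, x < q) (hA : Adm q s r I.card Cs.card δ k K)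
    (V : Submodule ℚ ℝ) (hV : Module.Finite ℚ V) (hs : Module.finrank ℚ V = s)
    (hmem : ∀ x ∈ I, ∀ c ∈ Cs,
      hur (((x + c : ℕ) : ℝ) / q) ∈ V ⊔ Submodule.span ℚ {(1 : ℝ)}) : False := by
  classical
  have hq0 : (0 : ℝ) < q := by exact_mod_cast hq
  have bas := Module.finBasisOfFinrankEq ℚ V hs
  have hrepr : ∀ v : V, (v : ℝ) = ∑ i, (bas.repr v i : ℝ) * (bas i : ℝ) := by
    intro v
    have h := congrArg (fun w : V => (w : ℝ)) (bas.sum_repr v)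
    simp only [Submodule.coe_sum, Submodule.coe_smul, Rat.smul_def] at h
    exact h.symm
  have hper : ∀ y l : ℕ, HZ7.SS q ((y + q * l : ℕ) : ℝ) = HZ7.SS q (y : ℝ) := by
    intro y l
    have := HZ7.SS_per (q := q) (y : ℝ) l
    push_cast
    exact this
  have hmod : ∀ y : ℕ, HZ7.SS q (y : ℝ) = HZ7.SS q ((y % q : ℕ) : ℝ) := by
    intro y
    conv_lhs => rw [← Nat.mod_add_div y q]
    exact hper _ _
  have key : ∀ y : ℕ, ∃ (c₀ : ℚ) (c : Fin s → ℚ), (∃ x ∈ I, ∃ c ∈ Cs, (x + c) % q = y) →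
      HZ7.SS q (y : ℝ) = (c₀ : ℝ) + ∑ i, (c i : ℝ) * (bas i : ℝ) := by
    intro y
    by_cases h : ∃ x ∈ I, ∃ c ∈ Cs, (x + c) % q = y
    · obtain ⟨x, hx, c, hc, hxc⟩ := h
      have h3 := hmem x hx c hc
      obtain ⟨v, hv, w, hw, hvw⟩ := Submodule.mem_sup.1 h3
      obtain ⟨a, rfl⟩ := Submodule.mem_span_singleton.1 hw
      refine ⟨1 / (q : ℚ) ^ 3 * a, fun i => 1 / (q : ℚ) ^ 3 * bas.repr ⟨v, hv⟩ i, fun _ => ?_⟩
      have h4 := hrepr ⟨v, hv⟩
      rw [← hxc, ← hmod, HZ7.SS_hur hq, ← hvw]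
      rw [Rat.smul_def, mul_one]
      have h5 : v = ∑ i, (bas.repr ⟨v, hv⟩ i : ℝ) * (bas i : ℝ) := h4
      rw [mul_add, add_comm]
      congr 1
      · push_cast
        ring
      · conv_lhs => rw [h5]
        rw [mul_sum]
        refine sum_congr rfl fun i _ => ?_
        push_cast
        ring
    · exact ⟨0, fun _ => 0, fun h' => absurd h' h⟩
  choose b₀ b hb using key
  refine core8 hq hCs hC hI hA (fun i => (bas i : ℝ)) b₀ b (fun x hx c hc => ?_)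
  rw [← hb ((x + c) % q) ⟨x, hx, c, hc, rfl⟩, ← hmod]
  push_cast
  rfl

end HZ8
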