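import Pool.Agent.LibHZ7.Defs

/-!
# HZ8: long windows: definitions

`T = (2 r + 1) n + 1` is the length of the windows; HZ7 is the case `r = 1`.
-/

namespace HZ8

open Finset HZ89 Polynomial

/-- the length of the windows -/
def Tw (r n : ℕ) : ℕ := (2 * r + 1) * n + 1

/-- the window sum, `t = i - (r + 1) n`, `-(r + 1) n ≤ t ≤ r n` -/
noncomputable def ps (q r n : ℕ) (u : ℝ) : ℝ :=
  ∑ i ∈ range (Tw r n), 1 / |u - q * ((r + 1) * n) + q * i| ^ 3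

/-- the normalisation of the multiplier -/
noncomputable def bet (q r n : ℕ) : ℝ :=
  (q : ℝ) ^ Tw r n * (Nat.lcmUpto (Tw r n) : ℝ) / ((Tw r n).factorial : ℝ)

/-- the multiplier -/
noncomputable def WP (q r n c : ℕ) : ℝ[X] :=
  (C (bet q r n) * ∏ i ∈ range (Tw r n), (X + C ((c : ℝ) - q * ((r + 1) * n) + q * i))) ^ 3

/-- `ps (y + c + q) = ps (y + c) - rho y` -/
noncomputable def rho (q r n c : ℕ) (y : ℝ) : ℝ :=
  1 / ((q : ℝ) * ((r + 1) * n) - (y + c)) ^ 3 - 1 / (y + c + (q : ℝ) * (r * n + 1)) ^ 3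

/-- the common denominator of the shifts -/
noncomputable def GP (q r n : ℕ) (Cs : Finset ℕ) (S : ℕ) : ℝ[X] :=
  ∏ c ∈ Cs, ∏ l ∈ range (S + 1), ((C ((q : ℝ) * ((r + 1) * n) - c - q * l) - X) *
    (X + C ((c : ℝ) + q * (r * n + 1) + q * l))) ^ 3

/-- the rows (iv) -/
noncomputable def rowB (q r n : ℕ) (Cs : Finset ℕ) (k : ℕ) (b₀ : ℕ → ℚ) (p : HZ7.RB Cs k)
    (j : ℕ) : ℝ :=
  ((b₀ ((j + p.1) % q) : ℝ) - ps q r n ((j : ℝ) + (p.1 : ℕ))) *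
    ((WP q r n p.1).eval (j : ℝ) * (j.choose p.2 : ℝ))

/-- admissible parameters: `s` = dimension, `m` = number of classes, `M₀` shifts -/
structure Adm (q s r m M₀ δ k K : ℕ) : Prop where
  hk : 1 ≤ k
  hr : 1 ≤ r
  hK : k + 3 * (2 * r + 1) + 1 ≤ K
  hKδ : K < δ
  hm : δ + K * (M₀ * (s + 1)) < m
  hPhi : (δ : ℝ) + (δ : ℝ) ^ 2 * Real.log q / 2 + s * M₀ * (K + (K : ℝ) ^ 2 * Real.log q / 2) +
      M₀ * (k + (k : ℝ) ^ 2 * Real.log q / 2 +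
        k * (3 * (2 * r + 1) * (2 * Real.log q + 1 + 8 * Real.log 2))) <
    M₀ * (k * (δ - K) * Real.log (2 * r + 1))

end HZ8
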