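import Pool.Agent.LibHZ8.Defs

/-!
# Row E1: the window sums on a class (SHORT, template LibHZ7/E1.lean)
-/

namespace HZ8

open Finset HZ89 Polynomial

theorem ps_add (q r n : ℕ) (u : ℝ) :
    ps q r n (u + q) = ps q r n u + 1 / |u + q * (r * n + 1)| ^ 3 -
      1 / |u - q * ((r + 1) * n)| ^ 3 := by
  unfold ps
  obtain ⟨f, hf⟩ : ∃ f : ℕ → ℝ, ∀ i, f i = 1 / |u - q * ((r + 1) * n) + q * i| ^ 3 :=
    ⟨_, fun i => rfl⟩
  have h1 : ∀ i : ℕ, 1 / |u + q - q * ((r + 1) * n) + q * i| ^ 3 = f (i + 1) := fun i => by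
    rw [hf]
    congr 3
    push_cast
    ring
  have h2 : f (Tw r n) = 1 / |u + q * (r * n + 1)| ^ 3 := by
    rw [hf]
    congr 3
    unfold Tw
    push_cast
    ring
  have h3 : f 0 = 1 / |u - q * ((r + 1) * n)| ^ 3 := by
    rw [hf]
    congr 3
    push_cast
    ring
  have h4 : ∑ i ∈ range (Tw r n), 1 / |u + q - q * ((r + 1) * n) + q * i| ^ 3 =
      ∑ i ∈ range (Tw r n), f (i + 1) := sum_congr rfl fun i _ => h1 i
  have h5 : ∑ i ∈ range (Tw r n), 1 / |u - q * ((r + 1) * n) + q * i| ^ 3 =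
      ∑ i ∈ range (Tw r n), f i := sum_congr rfl fun i _ => (hf i).symm
  rw [h4, h5, ← h2, ← h3]
  have h6 := sum_range_succ f (Tw r n)
  have h7 := sum_range_succ' f (Tw r n)
  linarith

theorem ps_shift {q r n c j : ℕ} (hr : 1 ≤ r) (hc : c < q) (l : ℕ) (hj : j + q * l < q * n) :
    ps q r n ((j : ℝ) + q * l + c) = ps q r n ((j : ℝ) + c) -
      ∑ k ∈ range l, rho q r n c ((j : ℝ) + k * q) := by
  induction l with
  | zero => simp
  | succ l ih =>
    have hj' : j + q * l + q < q * n := by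
      have : q * (l + 1) = q * l + q := by ring
      omega
    have ih' := ih (by omega)
    have e1 : ((j : ℝ) + q * ((l + 1 : ℕ) : ℝ) + c) = ((j : ℝ) + q * l + c) + q := by
      push_cast
      ring
    have hjR : (j : ℝ) + q * l + q < q * n := by exact_mod_cast hj'
    have hcR : (c : ℝ) < q := by exact_mod_cast hc
    have hj0 : (0 : ℝ) ≤ j := Nat.cast_nonneg j
    have hc0 : (0 : ℝ) ≤ c := Nat.cast_nonneg c
    have hql : (0 : ℝ) ≤ (q : ℝ) * l := by positivity
    have hqn : (0 : ℝ) ≤ (q : ℝ) * (r * n + 1) := by positivity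
    have hqn' : (0 : ℝ) ≤ (q : ℝ) * n := by positivity
    have hqr : (0 : ℝ) ≤ (q : ℝ) * (r * n) := by positivity
    have hqe : (q : ℝ) * ((r + 1) * n) = q * (r * n) + q * n := by ring
    have e2 : |(j : ℝ) + q * l + c + q * (r * n + 1)| =
        (j : ℝ) + l * q + c + q * (r * n + 1) := by
      rw [abs_of_nonneg (by linarith)]
      ring
    have e3 : |(j : ℝ) + q * l + c - q * ((r + 1) * n)| =
        q * ((r + 1) * n) - ((j : ℝ) + l * q + c) := by
      rw [abs_of_nonpos (by linarith)]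
      ring
    rw [e1, ps_add, ih', sum_range_succ, e2, e3]
    unfold rho
    ring

end HZ8
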