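import Pool.Agent.LibHZ8.Defs

/-!
# Row E2: the functions `rho` are not summable (MEDIUM, template LibHZ7/E2.lean)

The same with `(r + 1) n` in place of `2 n` and `r n + 1` in place of `n + 1`.
-/

namespace HZ8

open Finset HZ89 Polynomial Filter Topology

/-- the limit of `e ^ 3 * rho (y + e)` -/
private noncomputable def e2_W (q r n c : ℕ) (y : ℝ) : ℝ :=
  (if (q : ℝ) * ((r + 1) * n) - (y + c) = 0 then -1 else 0) -
    (if y + c + (q : ℝ) * (r * n + 1) = 0 then 1 else 0)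

private theorem e2_limrho (q r n c : ℕ) (y : ℝ) :
    Tendsto (fun e : ℝ => e ^ 3 * rho q r n c (y + e)) (𝓝[≠] 0) (𝓝 (e2_W q r n c y)) := by
  have h1 : (fun e : ℝ => e ^ 3 * rho q r n c (y + e)) = fun e =>
      (e ^ 3 * (1 / ((q : ℝ) * ((r + 1) * n) - (y + c) - e) ^ 3) -
        e ^ 3 * (1 / (y + c + (q : ℝ) * (r * n + 1) + e) ^ 3)) := by
    funext e
    rw [rho, mul_sub]
    have e1 : (q : ℝ) * ((r + 1) * n) - (y + e + c) = (q : ℝ) * ((r + 1) * n) - (y + c) - e := by ring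
    have e2 : y + e + c + (q : ℝ) * (r * n + 1) = y + c + (q : ℝ) * (r * n + 1) + e := by ring
    rw [e1, e2]
  rw [h1]
  exact (z2_lim1 _).sub (z2_lim2 _)

private theorem e2_W_nonpos (q r n c : ℕ) (y : ℝ) : e2_W q r n c y ≤ 0 := by
  unfold e2_W
  split_ifs <;> norm_num

private theorem e2_W_neg (q r n c : ℕ) (y : ℝ) (hy : (q : ℝ) * ((r + 1) * n) - (y + c) = 0) :
    e2_W q r n c y < 0 := by
  unfold e2_W
  rw [if_pos hy]
  split_ifs <;> norm_num

private theorem e2_W_zero {q r n c c₀ A i : ℕ} (hc : c < q) (hc₀ : c₀ < q) (hne : c ≠ c₀) (y : ℝ)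
    (hy : y = -(c₀ : ℝ) - q * A + q * i) : e2_W q r n c y = 0 := by
  have key : ∀ z : ℤ, (q : ℤ) * z + (c₀ - c) ≠ 0 := by
    intro z hz
    have h1 : (q : ℤ) ∣ (c₀ : ℤ) - c := ⟨-z, by linear_combination hz⟩
    have h2 : (c₀ : ℤ) - c = 0 := by
      apply Int.eq_zero_of_abs_lt_dvd h1
      rw [abs_lt]
      omega
    omega
  unfold e2_W
  rw [if_neg, if_neg, sub_zero]
  · intro h1
    rw [hy] at h1
    have h2 : ((q : ℤ) * (-(i - A + r * n + 1)) + (c₀ - c) : ℤ) = 0 := by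
      have h3 : (((q : ℤ) * (-(i - A + r * n + 1)) + (c₀ - c) : ℤ) : ℝ) = 0 := by
        push_cast
        linear_combination -h1
      exact_mod_cast h3
    exact key _ h2
  · intro h1
    rw [hy] at h1
    have h2 : ((q : ℤ) * ((r + 1) * n + A - i) + (c₀ - c) : ℤ) = 0 := by
      have h3 : (((q : ℤ) * ((r + 1) * n + A - i) + (c₀ - c) : ℤ) : ℝ) = 0 := by
        push_cast
        linear_combination h1
      exact_mod_cast h3
    exact key _ h2

theorem no_rational8 {q r n : ℕ} (hq : 1 ≤ q) {Cs : Finset ℕ} (hC : ∀ c ∈ Cs, c < q) (w : ℕ → ℝ)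
    {a D G : ℝ[X]} (hD : D ≠ 0) (hG : G ≠ 0)
    (h : ∀ y : ℝ, D.eval y ≠ 0 → D.eval (y + q) ≠ 0 → G.eval y ≠ 0 → G.eval (y + q) ≠ 0 →
      ∑ c ∈ Cs, w c * rho q r n c y = a.eval (y + q) / D.eval (y + q) - a.eval y / D.eval y) :
    ∀ c ∈ Cs, w c = 0 := by
  by_contra hcon
  push Not at hcon
  obtain ⟨c₀, hc₀, hwc₀⟩ := hcon
  have hc₀q := hC c₀ hc₀
  have hq1 : (1:ℝ) ≤ q := by exact_mod_cast hq
  have hq0 : (0:ℝ) < q := by linarith
  have hcr : (0 : ℝ) ≤ c₀ := Nat.cast_nonneg c₀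
  have hcr' : (c₀ : ℝ) ≤ q := by exact_mod_cast hc₀q.le
  have hn0 : (0 : ℝ) ≤ n := Nat.cast_nonneg n
  obtain ⟨R, hR⟩ := z2_far hD
  obtain ⟨A, hA⟩ := exists_nat_ge R
  have hA0 : (0:ℝ) ≤ A := Nat.cast_nonneg A
  obtain ⟨y0, hy0⟩ : ∃ y0 : ℝ, y0 = -(c₀ : ℝ) - q * A := ⟨_, rfl⟩
  obtain ⟨K, hK⟩ : ∃ K : ℕ, K = A + (A + (r + 1) * n + 1) := ⟨_, rfl⟩
  have hend : y0 + q * (K:ℝ) = q * A + (q * ((r + 1) * n + 1) - c₀) := by
    rw [hy0, hK]
    push_cast
    ring
  have hAq : (A : ℝ) ≤ q * A := by nlinarith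
  have hr0 : (0 : ℝ) ≤ (r + 1) * n := by positivity
  have hqn : (q : ℝ) ≤ q * ((r + 1) * n + 1) := by nlinarith
  have hD0 : D.eval y0 ≠ 0 := by
    intro h0
    have h1 := hR y0 h0
    rw [hy0, abs_of_nonpos (by linarith)] at h1
    linarith
  have hD1 : D.eval (y0 + q * (K:ℝ)) ≠ 0 := by
    intro h0
    have h1 := hR _ h0
    rw [hend, abs_of_nonneg (by linarith)] at h1
    linarith
  obtain ⟨F, hF⟩ : ∃ F : ℝ → ℝ, ∀ y, F y = a.eval y / D.eval y :=
    ⟨fun y => a.eval y / D.eval y, fun y => rfl⟩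
  -- the telescoping sum
  have htel : ∀ᶠ e : ℝ in 𝓝[≠] 0, e ^ 3 * (F (y0 + q * (K:ℝ) + e) - F (y0 + e)) =
      ∑ i ∈ range K, ∑ c ∈ Cs, w c * (e ^ 3 * rho q r n c (y0 + q * (i:ℝ) + e)) := by
    have h1 : ∀ᶠ e : ℝ in 𝓝[≠] 0, ∀ i ∈ range (K + 1), D.eval (y0 + q * (i:ℝ) + e) ≠ 0 :=
      (Filter.eventually_all_finset _).2 fun i _ => z2_poly hD _
    have h2 : ∀ᶠ e : ℝ in 𝓝[≠] 0, ∀ i ∈ range (K + 1), G.eval (y0 + q * (i:ℝ) + e) ≠ 0 :=
      (Filter.eventually_all_finset _).2 fun i _ => z2_poly hG _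
    filter_upwards [h1, h2] with e h1 h2
    have hs := Finset.sum_range_sub (fun i : ℕ => F (y0 + q * (i:ℝ) + e)) K
    simp only [Nat.cast_zero, mul_zero, add_zero] at hs
    rw [← hs, mul_sum]
    refine sum_congr rfl fun i hi => ?_
    have hiK : i < K := mem_range.mp hi
    have hm : i ∈ range (K + 1) := mem_range.mpr (by omega)
    have hm' : i + 1 ∈ range (K + 1) := mem_range.mpr (by omega)
    have e1 : y0 + q * ((i + 1 : ℕ):ℝ) + e = (y0 + q * (i:ℝ) + e) + q := by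
      push_cast
      ring
    have h4 := h1 (i + 1) hm'
    have h5 := h2 (i + 1) hm'
    rw [e1] at h4 h5
    have h6 := h (y0 + q * (i:ℝ) + e) (h1 i hm) h4 (h2 i hm) h5
    rw [e1, hF, hF, ← h6, mul_sum]
    exact sum_congr rfl fun c _ => by ring
  -- the limits
  have hlim1 : Tendsto (fun e : ℝ => e ^ 3 * (F (y0 + q * (K:ℝ) + e) - F (y0 + e))) (𝓝[≠] 0)
      (𝓝 0) := by
    have hc : ContinuousAt (fun e : ℝ => e ^ 3 * (F (y0 + q * (K:ℝ) + e) - F (y0 + e))) 0 := by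
      simp only [hF]
      apply ContinuousAt.mul (by fun_prop)
      apply ContinuousAt.sub
      · refine ContinuousAt.div ?_ ?_ (by simpa using hD1)
        · exact (a.continuous.comp (continuous_const.add continuous_id)).continuousAt
        · exact (D.continuous.comp (continuous_const.add continuous_id)).continuousAt
      · refine ContinuousAt.div ?_ ?_ (by simpa using hD0)
        · exact (a.continuous.comp (continuous_const.add continuous_id)).continuousAt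
        · exact (D.continuous.comp (continuous_const.add continuous_id)).continuousAt
    have h := hc.tendsto.mono_left (nhdsWithin_le_nhds (s := {0}ᶜ))
    simpa using h
  have hlim2 : Tendsto (fun e : ℝ => ∑ i ∈ range K, ∑ c ∈ Cs,
      w c * (e ^ 3 * rho q r n c (y0 + q * (i:ℝ) + e))) (𝓝[≠] 0)
      (𝓝 (∑ i ∈ range K, ∑ c ∈ Cs, w c * e2_W q r n c (y0 + q * (i:ℝ)))) := by
    apply tendsto_finsetSum
    intro i _
    apply tendsto_finsetSum
    intro c _
    exact (e2_limrho q r n c _).const_mul _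
  have huniq := tendsto_nhds_unique (hlim1.congr' htel) hlim2
  -- the other terms vanish
  have hone : ∀ i ∈ range K, ∑ c ∈ Cs, w c * e2_W q r n c (y0 + q * (i:ℝ)) =
      w c₀ * e2_W q r n c₀ (y0 + q * (i:ℝ)) := by
    intro i _
    apply sum_eq_single c₀
    · intro c hc hne
      rw [e2_W_zero (A := A) (i := i) (hC c hc) hc₀q hne (y0 + q * (i:ℝ)) (by rw [hy0]), mul_zero]
    · intro hne
      exact absurd hc₀ hne
  rw [sum_congr rfl hone, ← mul_sum] at huniq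
  have hneg : ∑ i ∈ range K, e2_W q r n c₀ (y0 + q * (i:ℝ)) < 0 := by
    apply sum_neg' (fun _ _ => e2_W_nonpos _ _ _ _ _)
    refine ⟨A + (r + 1) * n, mem_range.2 (by rw [hK]; omega), ?_⟩
    apply e2_W_neg q r n c₀
    rw [hy0]
    push_cast
    ring
  rcases mul_eq_zero.1 huniq.symm with h1 | h1
  · exact hwc₀ h1
  · exact hneg.ne h1

end HZ8
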