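import Pool.Agent.LibHZ8.Defs
import Pool.Agent.LibHZ6Z.P2

/-!
# Row E3: the common denominators (MEDIUM, template LibHZ7/E3.lean)
-/

namespace HZ8

open Finset HZ89 Polynomial

variable {q r n S : ℕ} {Cs : Finset ℕ}

theorem GP_natDegree : (GP q r n Cs S).natDegree ≤ 6 * Cs.card * (S + 1) := by
  unfold GP
  refine (natDegree_prod_le _ _).trans ?_
  have h0 : ∀ c ∈ Cs, (∏ l ∈ range (S + 1), ((C ((q : ℝ) * ((r + 1) * n) - c - q * l) - X) *
      (X + C ((c : ℝ) + q * (r * n + 1) + q * l))) ^ 3 : ℝ[X]).natDegree ≤ 6 * (S + 1) := by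
    intro c _
    refine (natDegree_prod_le _ _).trans ?_
    have h : ∀ l ∈ range (S + 1), (((C ((q : ℝ) * ((r + 1) * n) - c - q * l) - X) *
        (X + C ((c : ℝ) + q * (r * n + 1) + q * l))) ^ 3 : ℝ[X]).natDegree ≤ 6 := by
      intro l _
      refine natDegree_pow_le.trans ?_
      have h1 : ((C ((q : ℝ) * ((r + 1) * n) - c - q * l) - X) *
          (X + C ((c : ℝ) + q * (r * n + 1) + q * l)) : ℝ[X]).natDegree ≤ 2 := by
        compute_degree
      omega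
    refine (Finset.sum_le_sum h).trans ?_
    rw [Finset.sum_const, card_range, smul_eq_mul]
    exact le_of_eq (by ring)
  refine (Finset.sum_le_sum h0).trans ?_
  rw [Finset.sum_const, smul_eq_mul]
  exact le_of_eq (by ring)

theorem GP_ne : GP q r n Cs S ≠ 0 := by
  unfold GP
  rw [Finset.prod_ne_zero_iff]
  intro c _
  rw [Finset.prod_ne_zero_iff]
  intro l _
  refine pow_ne_zero _ (mul_ne_zero ?_ (X_add_C_ne_zero _))
  rw [← neg_sub]
  exact neg_ne_zero.2 (X_sub_C_ne_zero _)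

theorem GP_pos (hq : 1 ≤ q) (hr : 1 ≤ r) (hn : 1 ≤ n) (hC : ∀ c ∈ Cs, c < q) {y : ℝ} (h0 : 0 ≤ y)
    (h1 : y + q * S < q * n) : (GP q r n Cs S).eval y ≠ 0 := by
  unfold GP
  rw [eval_prod, Finset.prod_ne_zero_iff]
  intro c hc
  rw [eval_prod, Finset.prod_ne_zero_iff]
  intro l hl
  rw [mem_range] at hl
  have hq' : (0 : ℝ) < q := by exact_mod_cast hq
  have hl' : (l : ℝ) ≤ S := by exact_mod_cast (by omega : l ≤ S)
  have hc' : (c : ℝ) < q := by exact_mod_cast hC c hc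
  have hc0 : (0 : ℝ) ≤ c := Nat.cast_nonneg c
  have hn' : (1 : ℝ) ≤ n := by exact_mod_cast hn
  have h2 : (q : ℝ) * l ≤ q * S := mul_le_mul_of_nonneg_left hl' hq'.le
  have h3 : (q : ℝ) ≤ q * n := by nlinarith
  have h4 : (0 : ℝ) ≤ q * l := by positivity
  have hr' : (1 : ℝ) ≤ r := by exact_mod_cast hr
  have hqn : (0 : ℝ) < q * n := by positivity
  have h5 : 2 * ((q : ℝ) * n) ≤ (q : ℝ) * ((r + 1) * n) := by
    have h6 : (q : ℝ) * ((r + 1) * n) = (r + 1) * (q * n) := by ring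
    rw [h6]
    exact mul_le_mul_of_nonneg_right (by linarith) hqn.le
  have h7 : (0 : ℝ) < (q : ℝ) * (r * n + 1) := by positivity
  simp only [eval_pow, eval_mul, eval_add, eval_sub, eval_C, eval_X]
  refine pow_ne_zero _ (mul_ne_zero ?_ ?_)
  · apply ne_of_gt
    linarith
  · apply ne_of_gt
    linarith

theorem rho_poly {c l : ℕ} (hc : c ∈ Cs) (hl : l ≤ S) :
    ∃ p : ℝ[X], p.natDegree ≤ 6 * Cs.card * (S + 1) ∧
      ∀ y : ℝ, (GP q r n Cs S).eval y ≠ 0 →
        p.eval y = (GP q r n Cs S).eval y * rho q r n c (y + l * q) := by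
  have hd : ((C ((q : ℝ) * ((r + 1) * n) - c - q * l) - X) *
      (X + C ((c : ℝ) + q * (r * n + 1) + q * l))) ^ 3 ∣ GP q r n Cs S := by
    unfold GP
    exact (Finset.dvd_prod_of_mem (fun l : ℕ => ((C ((q : ℝ) * ((r + 1) * n) - c - q * l) - X) *
      (X + C ((c : ℝ) + q * (r * n + 1) + q * l))) ^ 3) (mem_range.2 (by omega))).trans
      (Finset.dvd_prod_of_mem (fun c : ℕ => ∏ l ∈ range (S + 1),
        ((C ((q : ℝ) * ((r + 1) * n) - c - q * l) - X) *
          (X + C ((c : ℝ) + q * (r * n + 1) + q * l))) ^ 3) hc)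
  have hG : GP q r n Cs S ≠ 0 := GP_ne
  obtain ⟨w1, d1, e1⟩ := HZ6Z.p2_div hG ((pow_dvd_pow_of_dvd (Dvd.intro _ rfl) 3).trans hd)
  obtain ⟨w2, d2, e2⟩ := HZ6Z.p2_div hG ((pow_dvd_pow_of_dvd (Dvd.intro_left _ rfl) 3).trans hd)
  refine ⟨w1 - w2, ((natDegree_sub_le _ _).trans (max_le d1 d2)).trans GP_natDegree,
    fun y hy => ?_⟩
  rw [eval_sub, e1 y hy, e2 y hy]
  simp only [eval_add, eval_sub, eval_C, eval_X]
  unfold rho
  have c1 : (q : ℝ) * ((r + 1) * n) - (y + l * q + c) =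
      (q : ℝ) * ((r + 1) * n) - c - q * l - y := by ring
  have c2 : y + l * q + c + (q : ℝ) * (r * n + 1) = y + ((c : ℝ) + q * (r * n + 1) + q * l) := by
    ring
  rw [c1, c2]
  ring

end HZ8
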