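import Pool.Agent.LibHZ8.CP2
import Pool.Agent.LibHZ8.CP3
import Pool.Agent.LibHZ89.Fam

/-!
# Dimensions and even periodic functions (helper89)
-/

namespace HZ8

open Finset HZ89

/-- the dimension of the values for all `x < q / 2` -/
theorem dim_all {q : ℕ} (hq : 2 ≤ q) (V : Submodule ℚ ℝ) (hV : Module.Finite ℚ V)
    (hall : ∀ x : ℕ, 1 ≤ x → 2 * x < q → hur ((x : ℝ) / q) ∈ V) :
    Real.sqrt q / (30 * Real.log q) ≤ (Module.finrank ℚ V : ℝ) + 1 := by
  classical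
  have hqr : (2 : ℝ) ≤ q := by exact_mod_cast hq
  have hL : 0.69 ≤ Real.log q := by
    have h1 := Real.log_two_gt_d9
    have h2 : Real.log 2 ≤ Real.log q := Real.log_le_log (by norm_num) hqr
    linarith
  have hD0 : (0 : ℝ) ≤ (Module.finrank ℚ V : ℝ) := Nat.cast_nonneg _
  rcases Nat.lt_or_ge q 3 with h3 | h3
  · have h4 : Real.sqrt (q : ℝ) ≤ 2 := by
      rw [Real.sqrt_le_left (by norm_num)]
      have : (q : ℝ) ≤ 4 := by exact_mod_cast (by omega : q ≤ 4)
      linarith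
    rw [div_le_iff₀ (by linarith)]
    nlinarith
  · have h1 := HZ7.dimension hq (m := (q - 1) / 2) (by omega) 1 1 (Nat.coprime_one_left q)
    have hsub : Submodule.span ℚ (((range ((q - 1) / 2)).image fun j : ℕ =>
        hur (((1 + 1 * j : ℕ) : ℝ) / q) : Finset ℝ) : Set ℝ) ≤ V := by
      rw [Submodule.span_le]
      intro y hy
      rw [mem_coe, mem_image] at hy
      obtain ⟨j, hj, rfl⟩ := hy
      have hj' := mem_range.1 hj
      exact hall _ (by omega) (by omega)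
    have : FiniteDimensional ℚ V := hV
    have h2 := Submodule.finrank_mono hsub
    have h2' : ((Module.finrank ℚ (Submodule.span ℚ (((range ((q - 1) / 2)).image fun j : ℕ =>
        hur (((1 + 1 * j : ℕ) : ℝ) / q) : Finset ℝ) : Set ℝ)) : ℕ) : ℝ) ≤
        (Module.finrank ℚ V : ℝ) := by exact_mod_cast h2
    refine le_trans ?_ (h1.trans (by linarith))
    have h5 : (q : ℝ) ≤ 4 * (((q - 1) / 2 : ℕ) : ℝ) := by
      have : q ≤ 4 * ((q - 1) / 2) := by omega
      exact_mod_cast this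
    have h6 : Real.sqrt q ≤ 2 * Real.sqrt (((q - 1) / 2 : ℕ) : ℝ) := by
      rw [Real.sqrt_le_left (by positivity), mul_pow, Real.sq_sqrt (Nat.cast_nonneg _)]
      linarith
    rw [div_le_div_iff₀ (by positivity) (by positivity)]
    nlinarith

/-- the dimension of the values for `x` prime to `q` -/
theorem dim_coprime {ε : ℝ} (hε : 0 < ε) : ∃ c : ℝ, 0 < c ∧ ∀ q : ℕ, 2 ≤ q →
    ∀ V : Submodule ℚ ℝ, Module.Finite ℚ V →
      (∀ x : ℕ, 1 ≤ x → 2 * x < q → x.Coprime q → hur ((x : ℝ) / q) ∈ V) →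
      c * (q : ℝ) ^ (1 / 2 - ε) < (Module.finrank ℚ V : ℝ) + 1 := by
  obtain ⟨C, hC, h3⟩ := three_omega hε
  refine ⟨ε / (40 * C), by positivity, fun q hq V hV hall => ?_⟩
  by_contra hle
  push Not at hle
  have hq1 : (1 : ℝ) ≤ q := by exact_mod_cast (by omega : 1 ≤ q)
  have hq0 : (0 : ℝ) < q := by linarith
  have hD0 : (0 : ℝ) ≤ (Module.finrank ℚ V : ℝ) := Nat.cast_nonneg _
  have hL0 : 0 ≤ Real.log q := Real.log_nonneg hq1
  have hL1 : Real.log q ≤ 2 / ε * (q : ℝ) ^ (ε / 2) := by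
    have := Real.log_le_rpow_div hq0.le (half_pos hε)
    calc Real.log q ≤ (q : ℝ) ^ (ε / 2) / (ε / 2) := this
      _ = 2 / ε * (q : ℝ) ^ (ε / 2) := by field_simp
  have hL2 : Real.log q ^ 2 ≤ (2 / ε) ^ 2 * (q : ℝ) ^ ε := by
    have h := pow_le_pow_left₀ hL0 hL1 2
    have e : ((q : ℝ) ^ (ε / 2)) ^ 2 = (q : ℝ) ^ ε := by
      rw [← Real.rpow_natCast, ← Real.rpow_mul hq0.le]
      congr 1
      push_cast
      ring
    rwa [mul_pow, e] at h
  have hS2 : ((Module.finrank ℚ V : ℝ) + 1) ^ 2 ≤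
      (ε / (40 * C)) ^ 2 * (q : ℝ) ^ (1 - 2 * ε) := by
    have h := pow_le_pow_left₀ (by linarith) hle 2
    have e : ((q : ℝ) ^ (1 / 2 - ε)) ^ 2 = (q : ℝ) ^ (1 - 2 * ε) := by
      rw [← Real.rpow_natCast, ← Real.rpow_mul hq0.le]
      congr 1
      push_cast
      ring
    rwa [mul_pow, e] at h
  have h3q := h3 q (by omega)
  have hprod : (q : ℝ) ^ (1 - 2 * ε) * (q : ℝ) ^ ε * (q : ℝ) ^ ε = q := by
    rw [← Real.rpow_add hq0, ← Real.rpow_add hq0]
    have : 1 - 2 * ε + ε + ε = 1 := by ring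
    rw [this, Real.rpow_one]
  have hmain : 320 * ((Module.finrank ℚ V : ℝ) + 1) ^ 2 * Real.log q ^ 2 *
      3 ^ q.primeFactors.card ≤ q := by
    have h4 : 320 * ((Module.finrank ℚ V : ℝ) + 1) ^ 2 * Real.log q ^ 2 *
        3 ^ q.primeFactors.card ≤
        320 * ((ε / (40 * C)) ^ 2 * (q : ℝ) ^ (1 - 2 * ε)) * ((2 / ε) ^ 2 * (q : ℝ) ^ ε) *
          (C * (q : ℝ) ^ ε) := by
      gcongr
    have h5 : 320 * ((ε / (40 * C)) ^ 2 * (q : ℝ) ^ (1 - 2 * ε)) * ((2 / ε) ^ 2 * (q : ℝ) ^ ε) *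
          (C * (q : ℝ) ^ ε) = 4 / 5 / C * q := by
      have e1 : 320 * ((ε / (40 * C)) ^ 2 * (q : ℝ) ^ (1 - 2 * ε)) *
          ((2 / ε) ^ 2 * (q : ℝ) ^ ε) * (C * (q : ℝ) ^ ε) =
          320 * (ε / (40 * C)) ^ 2 * (2 / ε) ^ 2 * C *
            ((q : ℝ) ^ (1 - 2 * ε) * (q : ℝ) ^ ε * (q : ℝ) ^ ε) := by ring
      rw [e1, hprod]
      field_simp
      norm_num
    rw [h5] at h4
    refine h4.trans ?_
    have h6 : 4 / 5 / C ≤ 1 := by
      rw [div_le_one (by linarith)]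
      linarith
    nlinarith
  have h7 := coprime_count8 hq V hV hmain ∅ (fun x h1 h2 h3 h4 =>
    absurd (Submodule.mem_sup_left (hall x h1 h2 h3)) h4)
  simp only [card_empty, Nat.cast_zero, mul_zero] at h7
  linarith

/-- The rank of the values modulo `V`. -/
theorem rank_ev {q : ℕ} (hq : 2 ≤ q) {B : ℝ} (hmain : ∀ V : Submodule ℚ ℝ,
    Module.Finite ℚ V → (∀ x : ℕ, 1 ≤ x → 2 * x < q → hur ((x : ℝ) / q) ∈ V) →
      B ≤ (Module.finrank ℚ V : ℝ) + 1) (V : Submodule ℚ ℝ) (hV : Module.Finite ℚ V) {ι : Type}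
    [Fintype ι] (v : ι → ℝ) (hv : ∀ x : ℕ, 1 ≤ x → 2 * x < q → ∃ i, v i = S q x) :
    B - Module.finrank ℚ V - 1 ≤
      Module.finrank ℚ (Submodule.span ℚ (Set.range fun i => V.mkQ (v i))) := by
  classical
  obtain ⟨κ, a, ha, hspan, hli⟩ := exists_linearIndependent' ℚ (fun i => V.mkQ (v i))
  have : Finite κ := Finite.of_injective a ha
  have : Fintype κ := Fintype.ofFinite κ
  have hr : Module.finrank ℚ (Submodule.span ℚ (Set.range fun i => V.mkQ (v i))) =
      Fintype.card κ := by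
    rw [← hspan]
    exact finrank_span_eq_card hli
  rw [hr]
  set U : Submodule ℚ ℝ := Submodule.span ℚ (Set.range fun k => v (a k)) with hU
  have : FiniteDimensional ℚ V := hV
  have hUfin : FiniteDimensional ℚ U := FiniteDimensional.span_of_finite ℚ (Set.finite_range _)
  have hVU : FiniteDimensional ℚ (V ⊔ U : Submodule ℚ ℝ) := Submodule.finiteDimensional_sup _ _
  have hfr : Module.finrank ℚ (V ⊔ U : Submodule ℚ ℝ) ≤ Module.finrank ℚ V + Fintype.card κ := by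
    refine (Submodule.finrank_add_le_finrank_add_finrank _ _).trans ?_
    have h := finrank_range_le_card (R := ℚ) (fun k => v (a k))
    rw [Set.finrank] at h
    exact Nat.add_le_add_left h _
  have hmem : ∀ i, v i ∈ V ⊔ U := by
    intro i
    have h1 : V.mkQ (v i) ∈ Submodule.span ℚ (Set.range ((fun i => V.mkQ (v i)) ∘ a)) := by
      rw [hspan]
      exact Submodule.subset_span ⟨i, rfl⟩
    have h2 : Submodule.span ℚ (Set.range ((fun i => V.mkQ (v i)) ∘ a)) = U.map V.mkQ := by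
      rw [hU, Submodule.map_span, ← Set.range_comp]
      rfl
    rw [h2] at h1
    obtain ⟨w, hw, hw2⟩ := h1
    have h3 : v i - w ∈ V := by
      rw [← Submodule.ker_mkQ V, LinearMap.mem_ker, map_sub, hw2, sub_self]
    have h4 : v i = (v i - w) + w := by ring
    rw [h4]
    exact Submodule.add_mem_sup h3 hw
  have hq0 : (0 : ℝ) < q := by exact_mod_cast (by omega : 0 < q)
  have h8 := hmain (V ⊔ U) hVU (by
    intro x hx hx2
    obtain ⟨i, hi⟩ := hv x hx hx2
    have h5 := hmem i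
    rw [hi, S_eq hx (by omega)] at h5
    have h6 := (V ⊔ U).smul_mem ((q : ℚ) ^ 3) h5
    rw [Rat.smul_def] at h6
    push_cast at h6
    have h7 : (q : ℝ) ^ 3 * (1 / (q : ℝ) ^ 3 * hur ((x : ℝ) / q)) = hur ((x : ℝ) / q) := by
      field_simp
    rwa [h7] at h6)
  have hfr' : (Module.finrank ℚ (V ⊔ U : Submodule ℚ ℝ) : ℝ) ≤
      Module.finrank ℚ V + Fintype.card κ := by exact_mod_cast hfr
  linarith

theorem even_family {q : ℕ} (hq : 2 ≤ q) (V : Submodule ℚ ℝ) (hV : Module.Finite ℚ V)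
    (T : Finset ℚ) (hT : 2 ≤ T.card) (F : Finset (ZMod q → ℚ))
    (hF : ∀ f ∈ F, (∀ j, f j ∈ T) ∧ (∀ j, f (-j) = f j) ∧
      ∑' n : ℕ, (f (n : ZMod q) : ℝ) / (n : ℝ) ^ 3 ∈ V) :
    (F.card : ℝ) ≤ (T.card : ℝ) ^
        (((q / 2 + 1 : ℕ) : ℝ) + Module.finrank ℚ V + 1 - Real.sqrt q / (30 * Real.log q)) := by
  classical
  have : NeZero q := ⟨by omega⟩
  have hrank := rank_ev hq (fun V hV h => dim_all hq V hV h) V hV
    (fun i : Fin (q / 2 + 1) => ZZ q i) (fun x h1 h2 => ZZ_eq h1 h2)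
  set r := Module.finrank ℚ (Submodule.span ℚ
    (Set.range fun i : Fin (q / 2 + 1) => V.mkQ (ZZ q i))) with hr
  have hcard := coset_card (fun i : Fin (q / 2 + 1) => V.mkQ (ZZ q i)) 0 T
    (F.image fun f => fun i : Fin (q / 2 + 1) => f ((i : ℕ) : ZMod q)) (by
      intro g hg
      rw [mem_image] at hg
      obtain ⟨f, hf, rfl⟩ := hg
      obtain ⟨h1, h2, h3⟩ := hF f hf
      refine ⟨fun i => h1 _, ?_⟩
      rw [L3_eq f h2] at h3
      have h4 : V.mkQ (∑ i : Fin (q / 2 + 1), (f ((i : ℕ) : ZMod q)) • ZZ q i) = 0 := by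
        rw [← LinearMap.mem_ker, Submodule.ker_mkQ]
        simpa only [Rat.smul_def] using h3
      rw [map_sum] at h4
      simpa only [map_smul] using h4)
  rw [card_image_of_injOn, Fintype.card_fin, ← hr] at hcard
  · have hT0 : (0 : ℝ) < T.card := by exact_mod_cast (by omega : 0 < T.card)
    have hT1 : (1 : ℝ) ≤ T.card := by exact_mod_cast (by omega : 1 ≤ T.card)
    have h1 : (F.card : ℝ) * (T.card : ℝ) ^ r ≤ (T.card : ℝ) ^ (q / 2 + 1) := by exact_mod_cast hcard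
    calc (F.card : ℝ) ≤ (T.card : ℝ) ^ (q / 2 + 1) / (T.card : ℝ) ^ r := by
          rw [le_div_iff₀ (by positivity)]
          exact h1
      _ = (T.card : ℝ) ^ (((q / 2 + 1 : ℕ) : ℝ) - (r : ℝ)) := by
          rw [Real.rpow_sub hT0, Real.rpow_natCast, Real.rpow_natCast]
      _ ≤ _ := by
          refine Real.rpow_le_rpow_of_exponent_le hT1 ?_
          linarith
  · intro f hf g hg hfg
    rw [Finset.mem_coe] at hf hg
    ext j
    rw [← cls_eq f (hF f hf).2.1 j, ← cls_eq g (hF g hg).2.1 j]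
    exact congrFun hfg (cls q j)

end HZ8
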