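import Pool.Agent.LibHZ8.CNT

/-!
# Row WIN: counting form for arithmetic progressions (SHORT/MEDIUM, from row CNT)

`L = log q`, `S = finrank V + 1`, `α = ⌈8 S L²⌉₊`; `A = {d i % q : i < α}`, `B = {(a + d i) % q : i < N - α}`,
`G = {(a + d t) % q : t ∈ E}` (images; injectivity of `i ↦ (e + d i) % q` on `range N`, `N ≤ q`, as in the proof of
`HZ7.progression`; `(x % q + y % q) % q = (x + y) % q`; `HZ7.hur_mod`).  `α ≤ 9 S L²` (as `S L² ≥ 1`, since
`400 L² ≤ N ≤ q` gives `L ≥ 9` by `HZ7.exp_small`), so `N - α ≥ 320 S² L²` and `N - α ≥ 0.9 N`; `sumset_count` gives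
`0.9 N ≤ 18 S L² * #G`, `#G ≤ #E`.
-/

namespace HZ8

open Finset HZ89

theorem window_count {q : ℕ} (hq : 2 ≤ q) (V : Submodule ℚ ℝ) (hV : Module.Finite ℚ V)
    (a d N : ℕ) (hd : d.Coprime q) (hN : N ≤ q)
    (h : 400 * ((Module.finrank ℚ V : ℝ) + 1) ^ 2 * Real.log q ^ 2 ≤ N) (E : Finset ℕ)
    (hE : ∀ t < N, hur (((a + d * t : ℕ) : ℝ) / q) ∉ V ⊔ Submodule.span ℚ {(1 : ℝ)} → t ∈ E) :
    (N : ℝ) ≤ 20 * ((Module.finrank ℚ V : ℝ) + 1) * Real.log q ^ 2 * E.card := by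
  obtain ⟨s, hs⟩ : ∃ s, Module.finrank ℚ V = s := ⟨_, rfl⟩
  have hcount := fun A B G => sumset_count hq V hV A B G
  rw [hs] at h ⊢
  rw [hs] at hcount
  have hqr : (2 : ℝ) ≤ q := by exact_mod_cast hq
  have hs0 : (0 : ℝ) ≤ s := Nat.cast_nonneg s
  have hNq : (N : ℝ) ≤ q := by exact_mod_cast hN
  set L := Real.log q with hLdef
  have hL1 : 0.69 ≤ L := by
    have h1 := Real.log_two_gt_d9
    have h2 : Real.log 2 ≤ Real.log q := Real.log_le_log (by norm_num) hqr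
    linarith
  have hS4 : (1 : ℝ) ≤ ((s : ℝ) + 1) ^ 2 := by nlinarith
  have hL9 : 9 ≤ L := by
    apply HZ7.exp_small hL1
    rw [hLdef, Real.exp_log (by linarith), ← hLdef]
    have h3 := mul_le_mul_of_nonneg_right hS4 (by positivity : (0 : ℝ) ≤ L ^ 2)
    have h4 : (0 : ℝ) ≤ L ^ 2 := by positivity
    nlinarith
  have hL2 : 81 ≤ L ^ 2 := by nlinarith
  have hS1 : ((s : ℝ) + 1) ≤ (s + 1) ^ 2 := by nlinarith
  have hS2 : ((s : ℝ) + 1) * L ^ 2 ≤ (s + 1) ^ 2 * L ^ 2 :=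
    mul_le_mul_of_nonneg_right hS1 (sq_nonneg L)
  have hS3 : 81 ≤ ((s : ℝ) + 1) * L ^ 2 := by nlinarith
  set α : ℕ := ⌈8 * ((s : ℝ) + 1) * L ^ 2⌉₊ with hα
  have hα1 : (α : ℝ) < 8 * ((s : ℝ) + 1) * L ^ 2 + 1 := Nat.ceil_lt_add_one (by positivity)
  have hα2 : (α : ℝ) ≤ 9 * (((s : ℝ) + 1) ^ 2 * L ^ 2) := by nlinarith
  have hαN : (α : ℝ) ≤ N / 10 := by nlinarith
  have hαN' : α ≤ N := by
    have h1 : (0 : ℝ) ≤ N := Nat.cast_nonneg N
    have h2 : (α : ℝ) ≤ N := by linarith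
    exact_mod_cast h2
  have hαq : α ≤ q := hαN'.trans hN
  have hβq : N - α ≤ q := (Nat.sub_le _ _).trans hN
  have hβ : ((N - α : ℕ) : ℝ) = N - α := by
    push_cast [Nat.cast_sub hαN']
    ring
  have hinj : ∀ (e N : ℕ), N ≤ q → Set.InjOn (fun i : ℕ => (e + d * i) % q) (range N : Set ℕ) := by
    intro e N hN i hi j hj hij
    have hi' : i < q := lt_of_lt_of_le (mem_range.1 (mem_coe.1 hi)) hN
    have hj' : j < q := lt_of_lt_of_le (mem_range.1 (mem_coe.1 hj)) hN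
    have h1 : e + d * i ≡ e + d * j [MOD q] := hij
    have h2 : d * i ≡ d * j [MOD q] := Nat.ModEq.add_left_cancel' e h1
    have h3 : i ≡ j [MOD q] := Nat.ModEq.cancel_left_of_coprime (by
      rw [Nat.coprime_comm] at hd
      exact hd) h2
    exact Nat.ModEq.eq_of_lt_of_lt h3 hi' hj'
  have key := hcount ((range α).image fun i => (0 + d * i) % q)
    ((range (N - α)).image fun i => (a + d * i) % q)
    (E.image fun t => (a + d * t) % q)
    (fun x hx => by
      obtain ⟨i, _, rfl⟩ := mem_image.1 hx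
      exact Nat.mod_lt _ (by omega))
    (fun x hx => by
      obtain ⟨i, _, rfl⟩ := mem_image.1 hx
      exact Nat.mod_lt _ (by omega))
    (by
      rw [card_image_of_injOn (hinj 0 α hαq), card_range]
      exact Nat.le_ceil _)
    (by
      rw [card_image_of_injOn (hinj a (N - α) hβq), card_range, hβ]
      nlinarith)
    (fun x hx y hy hxy => by
      obtain ⟨i, hi, rfl⟩ := mem_image.1 hx
      obtain ⟨j, hj, rfl⟩ := mem_image.1 hy
      have e1 : ((0 + d * i) % q + (a + d * j) % q) % q = (a + d * (i + j)) % q := by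
        rw [← Nat.add_mod]
        congr 1
        ring
      rw [← HZ7.hur_mod q _ (by omega), e1, HZ7.hur_mod q _ (by omega)] at hxy
      rw [e1]
      refine mem_image.2 ⟨i + j, hE _ ?_ hxy, rfl⟩
      have h1 := mem_range.1 hi
      have h2 := mem_range.1 hj
      omega)
  rw [card_image_of_injOn (hinj a (N - α) hβq), card_range, hβ] at key
  have hG : (((E.image fun t => (a + d * t) % q).card : ℕ) : ℝ) ≤ E.card := by
    exact_mod_cast card_image_le
  have h5 : 18 * ((s : ℝ) + 1) * L ^ 2 * ((E.image fun t => (a + d * t) % q).card : ℝ) ≤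
      18 * ((s : ℝ) + 1) * L ^ 2 * E.card :=
    mul_le_mul_of_nonneg_left hG (by positivity)
  linarith

end HZ8
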